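import Pool.Agent.Q218.RM.Cov
import Pool.Agent.Q218.PM.Io
import Pool.Agent.Q218.ZO.Law

/-!
Zero-one law for asymptotic events, and limit points of the traces of one configuration.
-/

set_option autoImplicit false

namespace Pool.Agent.Q218.RM

open H974 H934E Finset MeasureTheory TopologicalSpace Filter Topology
open H984H (Conf perc)
open Pool.Agent.Q218.PM (rec_bound)
open scoped ENNReal

theorem Bx_mono {m n : ℕ} (h : m ≤ n) : Bx m ⊆ Bx n := by
  rintro e ⟨h1, h2⟩
  have : (m : ℤ) ≤ n := by exact_mod_cast h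
  unfold inR at h1 h2
  refine ⟨?_, ?_⟩ <;> unfold inR <;> omega

theorem Bx_ex (e : Edg) : ∃ m : ℕ, e ∈ Bx m := by
  obtain ⟨x, y, t⟩ := e
  refine ⟨x.natAbs + y.natAbs + 1, ?_⟩
  have h1 := le_abs_self x
  have h2 := neg_abs_le x
  have h3 := le_abs_self y
  have h4 := neg_abs_le y
  cases t
  · refine ⟨?_, ?_⟩ <;> unfold inR <;> simp only [src_mk, tgt_false] <;> push_cast <;> omega
  · refine ⟨?_, ?_⟩ <;> unfold inR <;> simp only [src_mk, tgt_true] <;> push_cast <;> omega

theorem edges_mono (R : Rect) {n n' : ℕ} (hn : 1 ≤ n) (h : n ≤ n') :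
    R.edges (ms n) ⊆ R.edges (ms n') := by
  have hn0 : (0 : ℝ) < n := by exact_mod_cast hn
  have hn0' : (0 : ℝ) < n' := by exact_mod_cast hn.trans h
  have hnn : (n : ℝ) ≤ n' := by exact_mod_cast h
  have key : ∀ v : Vtx, v ∈ R.verts (ms n) → v ∈ R.verts (ms n') := by
    intro v hv
    rw [R.mem_verts (ms_pos _)] at hv ⊢
    unfold pt Rect.D at hv ⊢
    simp only [Set.mem_ofPred_eq] at hv ⊢
    rw [ms_eq hn] at hv
    rw [ms_eq (hn.trans h)]
    have hA := R.hA
    have hB := R.hB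
    have hH := R.hH
    obtain ⟨h1, h2, h3, h4⟩ := hv
    rw [one_div_mul_eq_div, lt_div_iff₀ hn0] at h1
    rw [one_div_mul_eq_div, div_lt_iff₀ hn0] at h2
    rw [one_div_mul_eq_div, lt_div_iff₀ hn0] at h3
    rw [one_div_mul_eq_div, div_lt_iff₀ hn0] at h4
    rw [one_div_mul_eq_div, one_div_mul_eq_div, lt_div_iff₀ hn0', div_lt_iff₀ hn0',
      lt_div_iff₀ hn0', div_lt_iff₀ hn0']
    refine ⟨?_, ?_, ?_, ?_⟩ <;> nlinarith
  intro e he
  have h1 := H973.mem_ES.1 he
  exact H973.mem_ES.2 ⟨key _ h1.1, key _ h1.2⟩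

theorem BadC_mono (R : Rect) {m M n n' : ℕ} (hn : 1 ≤ n) (h : n ≤ n') :
    BadC m M (R.edges (ms n)) ⊆ BadC m M (R.edges (ms n')) := by
  rintro ω ⟨v, ⟨u, hu, hr⟩, hf⟩
  refine ⟨v, ⟨u, hu, hr.mono ?_⟩, hf⟩
  intro e he
  rw [Finset.mem_coe, mem_Fs] at he ⊢
  exact ⟨edges_mono R hn h he.1, he.2⟩

theorem BadD_mono (R : Rect) {m M n n' : ℕ} (hn : 1 ≤ n) (h : n ≤ n') :
    BadD m M (R.edges (ms n)) ⊆ BadD m M (R.edges (ms n')) := by
  rintro ω ⟨v, ⟨u, hu, hr⟩, hf⟩
  refine ⟨v, ⟨u, hu, hr.mono ?_⟩, hf⟩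
  intro e he
  rw [Finset.mem_coe, Finset.mem_sdiff, mem_Fs] at he ⊢
  exact ⟨edges_mono R hn h he.1, fun h2 => he.2 ⟨he.1, h2.2⟩⟩

theorem tozero {A b a : ℝ} (ha : 0 < a) :
    Tendsto (fun M : ℕ => ENNReal.ofReal (A * (b / (M : ℝ)) ^ a)) atTop (𝓝 0) := by
  have h1 : Tendsto (fun M : ℕ => b / (M : ℝ)) atTop (𝓝 0) :=
    tendsto_const_nhds.div_atTop tendsto_natCast_atTop_atTop
  have h2 := (h1.rpow_const (Or.inr ha.le)).const_mul A
  rw [Real.zero_rpow ha.ne', mul_zero] at h2
  have h3 := ENNReal.tendsto_ofReal h2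
  rwa [ENNReal.ofReal_zero] at h3

theorem no_arm (R : Rect) : ∀ᵐ ω ∂perc, ∀ m : ℕ, ∃ M : ℕ, 1 ≤ M ∧ ∀ n, 1 ≤ n →
    ω ∉ BadC (m + 1) M (R.edges (ms n)) ∪ BadD (m + 1) M (R.edges (ms n)) := by
  obtain ⟨a, A, ha, hA, hbad⟩ := bad_prob
  rw [ae_all_iff]
  intro m
  rw [ae_iff]
  have hle : ∀ M : ℕ, m + 2 ≤ M → perc {ω | ¬ ∃ M : ℕ, 1 ≤ M ∧ ∀ n, 1 ≤ n →
      ω ∉ BadC (m + 1) M (R.edges (ms n)) ∪ BadD (m + 1) M (R.edges (ms n))} ≤
      ENNReal.ofReal (A * (((m + 1 : ℕ) : ℝ) / M) ^ a) := by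
    intro M hM
    have h1 : perc (⋃ n : ℕ, (BadC (m + 1) M (R.edges (ms (n + 1))) ∪
        BadD (m + 1) M (R.edges (ms (n + 1))))) =
        ⨆ n : ℕ, perc (BadC (m + 1) M (R.edges (ms (n + 1))) ∪
          BadD (m + 1) M (R.edges (ms (n + 1)))) :=
      Monotone.measure_iUnion (fun n n' h => Set.union_subset_union
        (BadC_mono R (by omega) (by omega)) (BadD_mono R (by omega) (by omega)))
    refine (measure_mono ?_).trans (h1.le.trans (iSup_le fun n => ?_))
    · intro ω hω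
      simp only [Set.mem_ofPred_eq, not_exists, not_and, not_forall, not_not] at hω
      obtain ⟨n, hn, hn2⟩ := hω M (by omega)
      refine Set.mem_iUnion.2 ⟨n - 1, ?_⟩
      rwa [show n - 1 + 1 = n by omega]
    · have h2 := hbad (R.edges (ms (n + 1))) (m + 1) M (by omega) (by omega)
      rw [measureReal_def] at h2
      exact (ENNReal.le_ofReal_iff_toReal_le (measure_ne_top _ _) (by positivity)).2 h2
  refine le_antisymm (ge_of_tendsto (tozero (A := A) (b := ((m + 1 : ℕ) : ℝ)) ha) ?_) zero_le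
  filter_upwards [eventually_ge_atTop (m + 2)] with M hM
  exact hle M hM

/-- **Finitely many edges do not matter in the limit.** -/
theorem near_ae (R : Rect) : ∀ᵐ ω ∂perc, ∀ ω' : Conf, {e | ω e ≠ ω' e}.Finite →
    Tendsto (fun n => dist (tr R n ω) (tr R n ω')) atTop (𝓝 0) := by
  filter_upwards [no_arm R] with ω h1 ω' hfin
  have hm : ∃ m : ℕ, ∀ e, ω e ≠ ω' e → e ∈ Bx (m + 1) := by
    classical
    choose k hk using Bx_ex
    refine ⟨hfin.toFinset.sup k, fun e he => ?_⟩
    refine Bx_mono ?_ (hk e)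
    have : k e ≤ hfin.toFinset.sup k := Finset.le_sup (f := k) (hfin.mem_toFinset.2 he)
    omega
  obtain ⟨m, hm⟩ := hm
  obtain ⟨M, hM1, hM⟩ := h1 m
  have h2 : Tendsto (fun n : ℕ => 6 * ((M : ℝ) + 1) * (1 / (n : ℝ))) atTop (𝓝 0) := by
    have h3 := (tendsto_const_nhds (x := (1 : ℝ))).div_atTop
      (tendsto_natCast_atTop_atTop (R := ℝ))
    have h4 := h3.const_mul (6 * ((M : ℝ) + 1))
    rwa [mul_zero] at h4
  refine squeeze_zero' (Eventually.of_forall fun n => dist_nonneg) ?_ h2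
  filter_upwards [eventually_gt_atTop (⌈4 / R.L0⌉₊ + 1)] with n hn
  have hn1 : 1 ≤ n := by omega
  have hn0 : (0 : ℝ) < n := by exact_mod_cast hn1
  have hδ : 4 * ms n < R.L0 := by
    rw [ms_eq hn1]
    have h5 : 4 / R.L0 < n := by
      have h6 : (4 / R.L0 : ℝ) ≤ ⌈4 / R.L0⌉₊ := Nat.le_ceil _
      have h7 : ((⌈4 / R.L0⌉₊ + 1 : ℕ) : ℝ) < n := by exact_mod_cast hn
      push_cast at h7
      linarith
    rw [div_lt_iff₀ R.L0_pos] at h5
    rw [mul_one_div, div_lt_iff₀ hn0]
    linarith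
  obtain ⟨k1, k2, -, -⟩ := R.small_geom (ms_pos n) hδ
  have h3 := hM n hn1
  rw [Set.mem_union, not_or] at h3
  have h5 := trace_near R (ms_pos n) (m := m + 1) (M := M) hM1 k1 k2
    (F := Fs (R.edges (ms n)) ω) (F' := Fs (R.edges (ms n)) ω')
    (Fs_off (R.edges (ms n)) (fun e he => by
      by_contra hcon
      exact he (hm e hcon))) (fun v hv hf => h3.1 ⟨v, hv, hf⟩) (fun v hv hf => h3.2 ⟨v, hv, hf⟩)
  have h6 : dist (tr R n ω) (tr R n ω') ≤ 6 * ((M : ℝ) + 1) * ms n := h5
  rwa [ms_eq hn1] at h6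

/-- **Zero-one law.** -/
theorem zero_one (R : Rect) {B : Set (ℕ → NonemptyCompacts ℂ)} (mB : MeasurableSet B)
    (hB : ∀ x y : ℕ → NonemptyCompacts ℂ, Tendsto (fun n => dist (x n) (y n)) atTop (𝓝 0) →
      (x ∈ B ↔ y ∈ B)) :
    perc {ω | (fun n => tr R n ω) ∈ B} = 0 ∨ perc {ω | (fun n => tr R n ω) ∈ B} = 1 := by
  have mm : Measurable (fun ω : Conf => (fun n => tr R n ω)) := by
    rw [measurable_pi_iff]
    exact fun n => tr_meas R n
  apply Pool.Agent.Q218.ZO.zo_event (mm mB)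
  filter_upwards [near_ae R] with ω hω ω' hfin
  exact hB _ _ (hω ω' hfin)

/-- Events of positive probability along a subsequence happen infinitely often. -/
theorem often (R : Rect) {g : NonemptyCompacts ℂ → ℝ} (hg0 : ∀ x, 0 ≤ g x) (hg1 : ∀ x, g x ≤ 1)
    (hlip : ∀ x y, |g x - g y| ≤ dist x y) {δ : ℝ} (hδ : 0 < δ)
    (h : ∃ᶠ n : ℕ in atTop, δ ≤ ∫ ω, g (tr R n ω) ∂perc) :
    ∀ᵐ ω ∂perc, ∃ᶠ n in atTop, 0 < g (tr R n ω) := by
  classical
  rw [frequently_atTop] at h
  choose G hG1 hG2 using h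
  set n : ℕ → ℕ := fun j => Nat.rec (G 1) (fun j x => G (2 ^ j * x)) j with hn
  have hs : ∀ j, n (j + 1) = G (2 ^ j * n j) := fun j => rfl
  have hge : ∀ j, 2 ^ j * n j ≤ n (j + 1) := fun j => by rw [hs]; exact hG1 _
  have h1 : ∀ j, 1 ≤ n j := by
    intro j
    induction j with
    | zero => exact hG1 1
    | succ j ih =>
      refine le_trans ?_ (hge j)
      exact Nat.one_le_iff_ne_zero.2 (by positivity)
  set P : ℕ → ℝ := fun j => ∫ ω, g (tr R (n j) ω) ∂perc with hPdef
  have hP : ∀ j, δ ≤ P j := by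
    intro j
    cases j with
    | zero => exact hG2 1
    | succ j => show δ ≤ ∫ ω, g (tr R (n (j + 1)) ω) ∂perc; rw [hs]; exact hG2 _
  have hmono : Monotone n := by
    apply monotone_nat_of_le_succ
    intro j
    refine le_trans ?_ (hge j)
    exact Nat.le_mul_of_pos_left _ (by positivity)
  have htend : Tendsto n atTop atTop := by
    refine tendsto_atTop_mono (fun j => ?_) tendsto_id
    show j ≤ n j
    cases j with
    | zero => exact Nat.zero_le _
    | succ j =>
      have h2 : j + 1 ≤ 2 ^ j := Nat.lt_two_pow_self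
      calc j + 1 ≤ 2 ^ j * 1 := by omega
        _ ≤ 2 ^ j * n j := Nat.mul_le_mul_left _ (h1 j)
        _ ≤ n (j + 1) := hge j
  obtain ⟨C, c, hC, hc, -, key⟩ := dec' R
  have gc := lip_cont hlip
  have mg : ∀ k, Measurable (fun ω => g (tr R k ω)) := fun k => gc.measurable.comp (tr_meas R k)
  have hgb : ∀ x, |g x| ≤ 1 := fun x => by rw [abs_of_nonneg (hg0 x)]; exact hg1 x
  have iG : ∀ k, Integrable (fun ω => g (tr R k ω)) perc := fun k =>
    Integrable.of_bound (mg k).aestronglyMeasurable 1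
      (Eventually.of_forall fun ω => by rw [Real.norm_eq_abs]; exact hgb _)
  have hP0 : ∀ j, 0 ≤ P j := fun j => integral_nonneg fun ω => hg0 _
  have hP1 : ∀ j, P j ≤ 1 := by
    intro j
    calc P j ≤ ∫ _ω, (1 : ℝ) ∂perc := integral_mono (iG _) (integrable_const _) fun ω => hg1 _
      _ = 1 := by simp
  set ρ : ℝ := (1/2 : ℝ) ^ c with hρ
  have hρ0 : 0 < ρ := by positivity
  have hρ1 : ρ < 1 := Real.rpow_lt_one (by norm_num) (by norm_num) hc
  set N : ℕ → ℕ → Set Conf := fun a J => {ω | ∀ i, a ≤ i → i < J → ¬ 0 < g (tr R (n i) ω)} with hN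
  have hNm : ∀ a J, MeasurableSet (N a J) := by
    intro a J
    have : N a J = ⋂ i : ℕ, ⋂ _ : a ≤ i, ⋂ _ : i < J, {ω | 0 < g (tr R (n i) ω)}ᶜ := by
      ext ω
      simp [hN]
    rw [this]
    exact MeasurableSet.iInter fun i => MeasurableSet.iInter fun _ => MeasurableSet.iInter fun _ =>
      (measurableSet_lt measurable_const (mg _)).compl
  have hrec : ∀ a J, a + 1 ≤ J → perc.real (N a (J + 1)) ≤
      perc.real (N a J) * (1 - P J) + C * ρ ^ (J - 1) := by
    intro a J hJ
    set m := n (J - 1) with hm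
    have hmn : m ≤ n J := hmono (by omega)
    set hh : Conf → ℝ := (N a J).indicator (fun _ => (1 : ℝ)) with hhd
    have mh : Measurable hh := measurable_const.indicator (hNm a J)
    have hdep : ∀ ω ω' : Conf, (∀ e ∈ Bx (ell R * m), ω e = ω' e) → hh ω = hh ω' := by
      intro ω ω' hw
      have e1 : ω ∈ N a J ↔ ω' ∈ N a J := by
        show (∀ i, a ≤ i → i < J → ¬ 0 < g (tr R (n i) ω)) ↔
          (∀ i, a ≤ i → i < J → ¬ 0 < g (tr R (n i) ω'))
        refine forall_congr' fun i => forall_congr' fun _ => forall_congr' fun hi => ?_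
        rw [tr_congr R (h1 i) (fun e he => hw e (Bx_mono (Nat.mul_le_mul_left _
          (hmono (show i ≤ J - 1 by omega))) he))]
      by_cases h2 : ω ∈ N a J
      · rw [hhd, Set.indicator_of_mem h2, Set.indicator_of_mem (e1.1 h2)]
      · rw [hhd, Set.indicator_of_notMem h2, Set.indicator_of_notMem (fun h3 => h2 (e1.2 h3))]
    have hb : ∀ ω, |hh ω| ≤ 1 := by
      intro ω
      by_cases h2 : ω ∈ N a J
      · rw [hhd, Set.indicator_of_mem h2]; simp
      · rw [hhd, Set.indicator_of_notMem h2]; simp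
    have hk := key m (n J) (h1 _) hmn hh mh hdep hb g hgb hlip
    have i1 : ∫ ω, hh ω ∂perc = perc.real (N a J) := by
      rw [hhd, integral_indicator_const _ (hNm a J)]
      simp
    have ihg : Integrable (fun ω => hh ω * g (tr R (n J) ω)) perc :=
      Integrable.of_bound (mh.mul (mg _)).aestronglyMeasurable 1
        (Eventually.of_forall fun ω => by
          rw [Real.norm_eq_abs, abs_mul]
          have := mul_le_mul (hb ω) (hgb (tr R (n J) ω)) (abs_nonneg _) zero_le_one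
          linarith)
    have ih : Integrable hh perc := (integrable_const (1 : ℝ)).indicator (hNm a J)
    have i2 : perc.real (N a (J + 1)) ≤ ∫ ω, (hh ω - hh ω * g (tr R (n J) ω)) ∂perc := by
      have e1 : perc.real (N a (J + 1)) =
          ∫ ω, (N a (J + 1)).indicator (fun _ => (1 : ℝ)) ω ∂perc := by
        rw [integral_indicator_const _ (hNm a (J + 1))]
        simp
      rw [e1]
      refine integral_mono ((integrable_const (1 : ℝ)).indicator (hNm a (J + 1)))
        (ih.sub ihg) fun ω => ?_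
      have hle : 0 ≤ hh ω - hh ω * g (tr R (n J) ω) := by
        have g1 : 0 ≤ hh ω := Set.indicator_nonneg (fun _ _ => zero_le_one) _
        have g2 := hg1 (tr R (n J) ω)
        nlinarith
      by_cases h2 : ω ∈ N a (J + 1)
      · have h3 : ω ∈ N a J := fun i h4 h5 => h2 i h4 (by omega)
        have h4 : g (tr R (n J) ω) = 0 :=
          le_antisymm (not_lt.1 (h2 J (by omega) (by omega))) (hg0 _)
        show (N a (J + 1)).indicator (fun _ => (1 : ℝ)) ω ≤ hh ω - hh ω * g (tr R (n J) ω)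
        rw [Set.indicator_of_mem h2, h4, mul_zero, sub_zero, hhd, Set.indicator_of_mem h3]
      · show (N a (J + 1)).indicator (fun _ => (1 : ℝ)) ω ≤ hh ω - hh ω * g (tr R (n J) ω)
        rw [Set.indicator_of_notMem h2]
        exact hle
    rw [integral_sub ih ihg, i1] at i2
    rw [i1] at hk
    have hk2 := (abs_le.1 hk).1
    have h5 : ((m : ℝ) / n J) ^ c ≤ ρ ^ (J - 1) := by
      have h6 : (m : ℝ) / n J ≤ (1/2) ^ (J - 1) := by
        have g2 : (0 : ℝ) < n (J - 1) := by exact_mod_cast h1 (J - 1)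
        have g3 : (0 : ℝ) < n J := by exact_mod_cast h1 J
        have g4 : (2 : ℝ) ^ (J - 1) * n (J - 1) ≤ n J := by
          have := hge (J - 1)
          rw [show J - 1 + 1 = J by omega] at this
          exact_mod_cast this
        rw [hm, div_le_iff₀ g3, one_div_pow, one_div_mul_eq_div, le_div_iff₀ (by positivity)]
        linarith
      have hm0 : (0 : ℝ) ≤ (m : ℝ) / n J := by positivity
      calc ((m : ℝ) / n J) ^ c ≤ ((1/2 : ℝ) ^ (J - 1)) ^ c := Real.rpow_le_rpow hm0 h6 hc.le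
        _ = ρ ^ (J - 1) := by
          rw [hρ, ← Real.rpow_natCast, ← Real.rpow_mul (by norm_num), ← Real.rpow_natCast,
            ← Real.rpow_mul (by norm_num), mul_comm]
    have h7 := mul_le_mul_of_nonneg_left h5 hC.le
    have h8 : perc.real (N a J) * (1 - P J) = perc.real (N a J) - perc.real (N a J) * P J := by ring
    rw [h8]
    show perc.real (N a (J + 1)) ≤ perc.real (N a J) -
      perc.real (N a J) * (∫ ω, g (tr R (n J) ω) ∂perc) + C * ρ ^ (J - 1)
    linarith
  have hE : ∀ a : ℕ, perc.real {ω | ∀ i, a ≤ i → ¬ 0 < g (tr R (n i) ω)} ≤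
      C * ρ ^ a / (1 - ρ) := by
    intro a
    have h2 : ∀ k : ℕ, perc.real {ω | ∀ i, a ≤ i → ¬ 0 < g (tr R (n i) ω)} ≤
        Real.exp (-((k : ℝ) * δ)) + C * ρ ^ a / (1 - ρ) := by
      intro k
      have h2 : perc.real {ω | ∀ i, a ≤ i → ¬ 0 < g (tr R (n i) ω)} ≤
          perc.real (N a (a + 1 + k)) :=
        measureReal_mono (fun ω hω i h3 _ => hω i h3) (measure_ne_top _ _)
      have h3 := rec_bound (q := fun J => perc.real (N a J)) (P := P)
        (r := fun J => C * ρ ^ (J - 1)) (a := a + 1) measureReal_le_one hP0 hP1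
        (fun i => by positivity) (fun J hJ => hrec a J hJ) k
      have h4 : ∑ i ∈ Finset.range k, C * ρ ^ (a + 1 + i - 1) ≤ C * ρ ^ a / (1 - ρ) := by
        have h5 : ∀ i ∈ Finset.range k, C * ρ ^ (a + 1 + i - 1) = C * ρ ^ a * ρ ^ i := by
          intro i _
          rw [show a + 1 + i - 1 = a + i by omega, pow_add]
          ring
        rw [Finset.sum_congr rfl h5, ← Finset.mul_sum, mul_div_assoc]
        have h6 : ∑ i ∈ Finset.range k, ρ ^ i ≤ 1 / (1 - ρ) := by
          rw [one_div]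
          rw [← tsum_geometric_of_lt_one hρ0.le hρ1]
          exact (summable_geometric_of_lt_one hρ0.le hρ1).sum_le_tsum _ (fun i _ => by positivity)
        calc C * ρ ^ a * ∑ i ∈ Finset.range k, ρ ^ i ≤ C * ρ ^ a * (1 / (1 - ρ)) :=
              mul_le_mul_of_nonneg_left h6 (by positivity)
          _ = C * (ρ ^ a / (1 - ρ)) := by ring
      have h5 : Real.exp (-∑ i ∈ Finset.range k, P (a + 1 + i)) ≤ Real.exp (-((k : ℝ) * δ)) := by
        apply Real.exp_le_exp.2
        have : (k : ℝ) * δ ≤ ∑ i ∈ Finset.range k, P (a + 1 + i) := by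
          calc (k : ℝ) * δ = ∑ _i ∈ Finset.range k, δ := by
                rw [Finset.sum_const, Finset.card_range, nsmul_eq_mul]
            _ ≤ _ := Finset.sum_le_sum fun i _ => hP _
        linarith
      exact h2.trans (h3.trans (by linarith))
    have h3 : Tendsto (fun k : ℕ => Real.exp (-((k : ℝ) * δ)) + C * ρ ^ a / (1 - ρ)) atTop
        (𝓝 (0 + C * ρ ^ a / (1 - ρ))) := by
      apply Tendsto.add_const
      exact Real.tendsto_exp_neg_atTop_nhds_zero.comp
        (tendsto_natCast_atTop_atTop.atTop_mul_const hδ)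
    rw [zero_add] at h3
    exact ge_of_tendsto' h3 h2
  have hlim : Tendsto (fun b : ℕ => C * ρ ^ b / (1 - ρ)) atTop (𝓝 0) := by
    have h1 := ((tendsto_pow_atTop_nhds_zero_of_lt_one hρ0.le hρ1).const_mul C).div_const (1 - ρ)
    rwa [mul_zero, zero_div] at h1
  have hall : ∀ᵐ ω ∂perc, ∀ a : ℕ, ¬ ∀ i, a ≤ i → ¬ 0 < g (tr R (n i) ω) := by
    rw [ae_all_iff]
    intro a
    rw [ae_iff]
    have h1 : perc.real {ω | ∀ i, a ≤ i → ¬ 0 < g (tr R (n i) ω)} ≤ 0 := by
      refine ge_of_tendsto hlim ?_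
      filter_upwards [eventually_ge_atTop a] with b hb
      refine (measureReal_mono ?_ (measure_ne_top _ _)).trans (hE b)
      intro ω hω i hi
      exact hω i (hb.trans hi)
    have h2 := le_antisymm h1 measureReal_nonneg
    rw [measureReal_eq_zero_iff] at h2
    simpa using h2
  filter_upwards [hall] with ω hω
  refine htend.frequently ?_
  rw [frequently_atTop]
  intro a
  have h1 := hω a
  push Not at h1
  exact h1

/-- Almost surely all points of the supports of all subsequential limits are limit points of the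
sequence of one configuration. -/
theorem acc (R : Rect) :
    ∀ᵐ ω ∂perc, ∀ (φ : ℕ → ℕ) (μ : ProbabilityMeasure (NonemptyCompacts ℂ)),
      Tendsto φ atTop atTop →
      Tendsto (fun i => R.law (ms_pos (φ i))) atTop (𝓝 μ) →
      ∀ x : NonemptyCompacts ℂ,
        (∀ r : ℝ, 0 < r → 0 < (μ : Measure (NonemptyCompacts ℂ)) (Metric.ball x r)) →
        ∀ r : ℝ, 0 < r → ∃ᶠ n in atTop, dist (tr R n ω) x < r := by
  have hne : Nonempty (NonemptyCompacts ℂ) := ⟨tr R 1 (fun _ => true)⟩
  set g : ℕ → ℕ → NonemptyCompacts ℂ → ℝ := fun i k y =>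
    max 0 (1 / ((k : ℝ) + 1) - dist y (TopologicalSpace.denseSeq (NonemptyCompacts ℂ) i)) with hg
  have hg0 : ∀ i k y, 0 ≤ g i k y := fun i k y => le_max_left _ _
  have hg1 : ∀ i k y, g i k y ≤ 1 := by
    intro i k y
    apply max_le zero_le_one
    have h1 : 1 / ((k : ℝ) + 1) ≤ 1 := by
      rw [div_le_one (by positivity)]
      have : (0 : ℝ) ≤ k := by positivity
      linarith
    have h2 : 0 ≤ dist y (TopologicalSpace.denseSeq (NonemptyCompacts ℂ) i) := dist_nonneg
    linarith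
  have hlip : ∀ i k x y, |g i k x - g i k y| ≤ dist x y := by
    intro i k x y
    refine (abs_max_sub_max_le_max _ _ _ _).trans (max_le ?_ ?_)
    · rw [sub_self, abs_zero]; exact dist_nonneg
    · rw [abs_sub_le_iff]
      have h1 := dist_triangle x y (TopologicalSpace.denseSeq (NonemptyCompacts ℂ) i)
      have h2 := dist_triangle y x (TopologicalSpace.denseSeq (NonemptyCompacts ℂ) i)
      rw [dist_comm y x] at h2
      constructor <;> linarith
  have h1 : ∀ᵐ ω ∂perc, ∀ i k : ℕ,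
      (∃ δ : ℝ, 0 < δ ∧ ∃ᶠ n : ℕ in atTop, δ ≤ ∫ ω, g i k (tr R n ω) ∂perc) →
      ∃ᶠ n in atTop, 0 < g i k (tr R n ω) := by
    rw [ae_all_iff]; intro i
    rw [ae_all_iff]; intro k
    by_cases h : ∃ δ : ℝ, 0 < δ ∧ ∃ᶠ n : ℕ in atTop, δ ≤ ∫ ω, g i k (tr R n ω) ∂perc
    · obtain ⟨δ, hδ, h⟩ := h
      filter_upwards [often R (hg0 i k) (hg1 i k) (hlip i k) hδ h] with ω hω _
      exact hω
    · exact Eventually.of_forall fun ω h' => absurd h' h
  filter_upwards [h1] with ω hω φ μ hφ hμ x hx r hr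
  obtain ⟨k, hk⟩ := exists_nat_one_div_lt (show 0 < r / 2 by positivity)
  have hk0 : (0 : ℝ) < 1 / ((k : ℝ) + 1) := by positivity
  obtain ⟨i, hi⟩ := (TopologicalSpace.denseRange_denseSeq (NonemptyCompacts ℂ)).exists_dist_lt x hk0
  set d := TopologicalSpace.denseSeq (NonemptyCompacts ℂ) i with hd
  set s : ℝ := (1 / ((k : ℝ) + 1) - dist x d) / 2 with hs
  have hs0 : 0 < s := by rw [hs]; linarith
  have gc := lip_cont (hlip i k)
  have ig : ∀ ν : ProbabilityMeasure (NonemptyCompacts ℂ),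
      Integrable (g i k) (ν : Measure (NonemptyCompacts ℂ)) := fun ν =>
    Integrable.of_bound gc.aestronglyMeasurable 1 (Eventually.of_forall fun y => by
      rw [Real.norm_eq_abs, abs_of_nonneg (hg0 _ _ _)]; exact hg1 _ _ _)
  have hpos : 0 < ∫ y, g i k y ∂(μ : Measure (NonemptyCompacts ℂ)) := by
    have h2 : ∀ y, (Metric.ball x s).indicator (fun _ => s) y ≤ g i k y := by
      intro y
      by_cases hy : y ∈ Metric.ball x s
      · rw [Set.indicator_of_mem hy]
        refine le_trans ?_ (le_max_right _ _)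
        have h3 : dist y x < s := hy
        have h4 := dist_triangle y x d
        linarith
      · rw [Set.indicator_of_notMem hy]
        exact hg0 _ _ _
    have h3 : ∫ y, (Metric.ball x s).indicator (fun _ => s) y ∂(μ : Measure (NonemptyCompacts ℂ)) ≤
        ∫ y, g i k y ∂(μ : Measure (NonemptyCompacts ℂ)) :=
      integral_mono ((integrable_const s).indicator Metric.isOpen_ball.measurableSet) (ig μ) h2
    refine lt_of_lt_of_le ?_ h3
    rw [integral_indicator_const _ Metric.isOpen_ball.measurableSet, smul_eq_mul]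
    apply mul_pos _ hs0
    rw [measureReal_def]
    exact ENNReal.toReal_pos (hx s hs0).ne' (measure_ne_top _ _)
  set I := ∫ y, g i k y ∂(μ : Measure (NonemptyCompacts ℂ)) with hI
  have hlim : Tendsto (fun j => ∫ y, g i k y ∂(R.law (ms_pos (φ j)) :
      Measure (NonemptyCompacts ℂ))) atTop (𝓝 I) := by
    have h6 := ProbabilityMeasure.tendsto_iff_forall_integral_tendsto.1 hμ
    exact h6 (BoundedContinuousFunction.ofNormedAddCommGroup (g i k) gc 1 fun f => by
      rw [Real.norm_eq_abs, abs_of_nonneg (hg0 _ _ _)]; exact hg1 _ _ _)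
  have hfr : ∃ᶠ n : ℕ in atTop, I / 2 ≤ ∫ ω, g i k (tr R n ω) ∂perc := by
    have h3 : ∃ᶠ j : ℕ in atTop, I / 2 ≤ ∫ ω, g i k (tr R (φ j) ω) ∂perc := by
      refine Eventually.frequently ?_
      filter_upwards [hlim.eventually (lt_mem_nhds (show I / 2 < I by linarith))] with j hj
      rw [← tr_law, integral_map (tr_meas R _).aemeasurable gc.aestronglyMeasurable] at hj
      exact hj.le
    exact hφ.frequently h3
  refine (hω i k ⟨I / 2, by positivity, hfr⟩).mono fun n hn => ?_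
  have h4 : dist (tr R n ω) d < 1 / ((k : ℝ) + 1) := by
    by_contra hcon
    push Not at hcon
    have : g i k (tr R n ω) = 0 := max_eq_left (by linarith)
    rw [this] at hn
    exact lt_irrefl _ hn
  calc dist (tr R n ω) x ≤ dist (tr R n ω) d + dist d x := dist_triangle _ _ _
    _ < r := by rw [dist_comm _ x]; linarith

end Pool.Agent.Q218.RM
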