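import Pool.Agent.Q218.RM.Law
import Pool.Agent.Q218.DC.Mix
import Pool.Agent.Q218.DC.Sim
import Pool.Agent.Q218.DC.Slln

/-!
Decorrelation of scales and almost sure limit theorem for the interface in a rectangle.
-/

set_option autoImplicit false

namespace Pool.Agent.Q218.RM

open H974 H934E Finset MeasureTheory TopologicalSpace Filter Topology
open H984H (Conf perc)
open Pool.Agent.Q218.DC (mix mix_in mix_out mix_meas int_mix lav sim log_avg)

theorem prod_fst_le {s : Set Conf} : (perc.prod perc).real {p | p.1 ∈ s} ≤ perc.real s := by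
  have h1 : (perc.prod perc) {p | p.1 ∈ s} ≤ perc s := by
    have h2 : {p : Conf × Conf | p.1 ∈ s} ⊆ (toMeasurable perc s) ×ˢ Set.univ := by
      intro p hp
      exact ⟨subset_toMeasurable _ _ hp, Set.mem_univ _⟩
    refine (measure_mono h2).trans ?_
    rw [Measure.prod_prod, measure_univ, mul_one, measure_toMeasurable]
  exact ENNReal.toReal_mono (measure_ne_top _ _) h1

theorem int_abs_le {Ω : Type*} [MeasurableSpace Ω] (μ : Measure Ω) [IsProbabilityMeasure μ]
    {u : Ω → ℝ} (mu : Measurable u) {K δ : ℝ} (hK0 : 0 ≤ K) (hδ : 0 ≤ δ) (hK : ∀ ω, |u ω| ≤ K)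
    {s : Set Ω} (hs : ∀ ω, ω ∉ s → |u ω| ≤ δ) : ∫ ω, |u ω| ∂μ ≤ δ + K * μ.real s := by
  set s' : Set Ω := {ω | δ < |u ω|} with hs'
  have ms' : MeasurableSet s' := measurableSet_lt measurable_const mu.abs
  have hsub : s' ⊆ s := by
    intro ω hω
    by_contra hcon
    exact absurd (hs ω hcon) (not_le.2 hω)
  have hint : Integrable (fun ω => |u ω|) μ :=
    Integrable.of_bound mu.abs.aestronglyMeasurable K (Eventually.of_forall fun ω => by
      rw [Real.norm_eq_abs, abs_abs]; exact hK ω)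
  have hle : ∀ ω, |u ω| ≤ δ + s'.indicator (fun _ => K) ω := by
    intro ω
    by_cases h : ω ∈ s'
    · rw [Set.indicator_of_mem h]
      have := hK ω
      linarith
    · rw [Set.indicator_of_notMem h, add_zero]
      exact not_lt.1 h
  calc ∫ ω, |u ω| ∂μ ≤ ∫ ω, (δ + s'.indicator (fun _ => K) ω) ∂μ := by
        apply integral_mono hint _ hle
        exact (integrable_const _).add ((integrable_const K).indicator ms')
    _ = δ + K * μ.real s' := by
        rw [integral_add (integrable_const _) ((integrable_const K).indicator ms'),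
          integral_indicator_const _ ms']
        simp [mul_comm]
    _ ≤ δ + K * μ.real s := by
        have := measureReal_mono (μ := μ) hsub (measure_ne_top _ _)
        have := mul_le_mul_of_nonneg_left this hK0
        linarith

theorem lip_cont {g : NonemptyCompacts ℂ → ℝ} (h : ∀ x y, |g x - g y| ≤ dist x y) :
    Continuous g := by
  have : LipschitzWith 1 g := LipschitzWith.of_dist_le_mul fun f f' => by
    rw [Real.dist_eq, NNReal.coe_one, one_mul]
    exact h f f'
  exact this.continuous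

/-- **Decorrelation of scales.** -/
theorem dec (R : Rect) : ∃ C c : ℝ, 0 < C ∧ 0 < c ∧ ∀ m n : ℕ, 1 ≤ m → m ≤ n →
    ∀ h : Conf → ℝ, Measurable h → (∀ ω ω' : Conf, (∀ e ∈ Bx m, ω e = ω' e) → h ω = h ω') →
    (∀ ω, |h ω| ≤ 1) → ∀ g : NonemptyCompacts ℂ → ℝ, (∀ x, |g x| ≤ 1) →
    (∀ x y, |g x - g y| ≤ dist x y) →
    |∫ ω, h ω * g (tr R n ω) ∂perc - (∫ ω, h ω ∂perc) * ∫ ω, g (tr R n ω) ∂perc| ≤
      C * ((m : ℝ) / n) ^ c := by
  obtain ⟨C, c, hC, hc, key⟩ := near R
  refine ⟨3 * C, c, by positivity, hc, ?_⟩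
  intro m n hm hmn h mF hFd hb g hg hlip
  obtain ⟨B, hB, hnear⟩ := key m n hm hmn
  set D : Set Edg := Bx m with hD
  set G : Conf → ℝ := fun ω => g (tr R n ω) with hG
  have gc := lip_cont hlip
  have mG : Measurable G := gc.measurable.comp (tr_meas R n)
  have hGb : ∀ ω, |G ω| ≤ 1 := fun ω => hg _
  have hle1 : ∀ a b : ℝ, |a| ≤ 1 → |b| ≤ 1 → |a * b| ≤ 2 := by
    intro a b ha hb
    rw [abs_mul]
    have := mul_le_mul ha hb (abs_nonneg b) zero_le_one
    linarith
  have e1 := int_mix (fun _ : Edg => (PMF.uniformOfFintype Bool).toMeasure) D mF mG hFd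
    hb hGb
  have e2 : ∫ ω, h ω * G ω ∂perc = ∫ p, h p.1 * G p.1 ∂(perc.prod perc) := by
    have h1 : (perc.prod perc).map Prod.fst = perc := by
      rw [Measure.map_fst_prod]
      simp
    have h2 := integral_map (μ := perc.prod perc) (φ := Prod.fst) measurable_fst.aemeasurable
      (f := fun ω : Conf => h ω * G ω) (mF.mul mG).aestronglyMeasurable
    rw [h1] at h2
    exact h2
  have hbd2 : ∀ u : Conf × Conf → ℝ, Measurable u → (∀ ω, |u ω| ≤ 2) →
      Integrable u (perc.prod perc) := by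
    intro u mu hu
    exact Integrable.of_bound mu.aestronglyMeasurable 2 (Eventually.of_forall fun ω => by
      rw [Real.norm_eq_abs]; exact hu ω)
  have mG1 : Measurable (fun p : Conf × Conf => G p.1) := mG.comp measurable_fst
  have mG2 : Measurable (fun p : Conf × Conf => G (mix D p.1 p.2)) := mG.comp (mix_meas _)
  have mF1 : Measurable (fun p : Conf × Conf => h p.1) := mF.comp measurable_fst
  have e3 : (∫ ω, h ω ∂perc) * ∫ ω, G ω ∂perc =
      ∫ p, h p.1 * G (mix D p.1 p.2) ∂(perc.prod perc) := e1.symm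
  have j1 : Integrable (fun p : Conf × Conf => h p.1 * G p.1) (perc.prod perc) :=
    hbd2 _ (mF1.mul mG1) fun p => hle1 _ _ (hb _) (hGb _)
  have j2 : Integrable (fun p : Conf × Conf => h p.1 * G (mix D p.1 p.2))
      (perc.prod perc) := hbd2 _ (mF1.mul mG2) fun p => hle1 _ _ (hb _) (hGb _)
  have hdif : ∀ p : Conf × Conf, |G p.1 - G (mix D p.1 p.2)| ≤ 2 := by
    intro p
    have h2 := hGb p.1
    have h3 := hGb (mix D p.1 p.2)
    have h4 := abs_sub (G p.1) (G (mix D p.1 p.2))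
    exact h4.trans (by linarith)
  have d3 : |∫ ω, h ω * G ω ∂perc - (∫ ω, h ω ∂perc) * ∫ ω, G ω ∂perc| ≤
      ∫ p, |G p.1 - G (mix D p.1 p.2)| ∂(perc.prod perc) := by
    rw [e2, e3, ← integral_sub j1 j2]
    refine (abs_integral_le_integral_abs).trans ?_
    apply integral_mono (hbd2 _ ((mF1.mul mG1).sub (mF1.mul mG2)).abs fun ω => ?_)
      (hbd2 _ (mG1.sub mG2).abs fun ω => ?_)
    · intro p
      show |h p.1 * G p.1 - h p.1 * G (mix D p.1 p.2)| ≤ |G p.1 - G (mix D p.1 p.2)|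
      rw [← mul_sub, abs_mul]
      exact mul_le_of_le_one_left (abs_nonneg _) (hb _)
    · show |(|h ω.1 * G ω.1 - h ω.1 * G (mix D ω.1 ω.2)|)| ≤ 2
      rw [abs_abs, ← mul_sub, abs_mul]
      exact (mul_le_of_le_one_left (abs_nonneg _) (hb _)).trans (hdif ω)
    · show |(|G ω.1 - G (mix D ω.1 ω.2)|)| ≤ 2
      rw [abs_abs]
      exact hdif ω
  refine d3.trans ?_
  have h5 := int_abs_le (perc.prod perc) (mG1.sub mG2) (K := 2) (δ := C * ((m : ℝ) / n) ^ c)
    (by norm_num) (by positivity) hdif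
    (s := {p : Conf × Conf | p.1 ∈ B}) (fun p hp => by
      refine (hlip _ _).trans (hnear _ _ (fun e he => ?_) hp)
      rw [mix_out he])
  refine h5.trans ?_
  have h7 := prod_fst_le (s := B)
  calc C * ((m : ℝ) / n) ^ c + 2 * (perc.prod perc).real {p | p.1 ∈ B} ≤
        C * ((m : ℝ) / n) ^ c + 2 * (C * ((m : ℝ) / n) ^ c) := by
        have := h7.trans hB
        linarith
    _ = 3 * C * ((m : ℝ) / n) ^ c := by ring

/-- the size of the rectangle -/
noncomputable def ell (R : Rect) : ℕ := ⌈R.A + R.B + R.H⌉₊ + 1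

theorem edges_Bx (R : Rect) {n : ℕ} (hn : 1 ≤ n) {e : Edg} (he : e ∈ R.edges (ms n)) :
    e ∈ Bx (ell R * n) := by
  have hn0 : (0 : ℝ) < n := by exact_mod_cast hn
  have key : ∀ v : Vtx, v ∈ R.verts (ms n) →
      inR (-((ell R * n : ℕ) : ℤ)) ((ell R * n : ℕ) : ℤ) (-((ell R * n : ℕ) : ℤ))
        ((ell R * n : ℕ) : ℤ) v := by
    intro v hv
    rw [R.mem_verts (ms_pos n)] at hv
    unfold pt Rect.D at hv
    simp only [Set.mem_ofPred_eq] at hv
    rw [ms_eq hn] at hv
    obtain ⟨h1, h2, h3, h4⟩ := hv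
    rw [one_div_mul_eq_div, lt_div_iff₀ hn0] at h1
    rw [one_div_mul_eq_div, div_lt_iff₀ hn0] at h2
    rw [one_div_mul_eq_div, lt_div_iff₀ hn0] at h3
    rw [one_div_mul_eq_div, div_lt_iff₀ hn0] at h4
    have hA := R.hA
    have hB := R.hB
    have hH := R.hH
    have hl : R.A + R.B + R.H ≤ (ell R : ℝ) - 1 := by
      unfold ell
      push_cast
      have := Nat.le_ceil (R.A + R.B + R.H)
      linarith
    have h5 : (((ell R * n : ℕ) : ℤ) : ℝ) = (ell R : ℝ) * n := by push_cast; ring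
    have g1 : (-(((ell R * n : ℕ) : ℤ) : ℝ)) ≤ (v.1 : ℝ) := by
      rw [h5]; nlinarith
    have g2 : (v.1 : ℝ) ≤ (((ell R * n : ℕ) : ℤ) : ℝ) := by
      rw [h5]; nlinarith
    have g3 : (-(((ell R * n : ℕ) : ℤ) : ℝ)) ≤ (v.2 : ℝ) := by
      rw [h5]
      have h6 : (-1 : ℝ) < v.2 := by nlinarith
      have h7 : (1 : ℝ) ≤ (ell R : ℝ) * n := by
        have a1 : (1 : ℝ) ≤ n := by exact_mod_cast hn
        have a2 : (1 : ℝ) ≤ (ell R : ℝ) := by linarith
        nlinarith
      linarith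
    have g4 : (v.2 : ℝ) ≤ (((ell R * n : ℕ) : ℤ) : ℝ) := by
      rw [h5]; nlinarith
    refine ⟨⟨?_, ?_⟩, ⟨?_, ?_⟩⟩
    · exact_mod_cast g1
    · exact_mod_cast g2
    · exact_mod_cast g3
    · exact_mod_cast g4
  have h1 := H973.mem_ES.1 he
  exact ⟨key _ h1.1, key _ h1.2⟩

theorem tr_congr (R : Rect) {n : ℕ} (hn : 1 ≤ n) {ω ω' : Conf}
    (h : ∀ e ∈ Bx (ell R * n), ω e = ω' e) : tr R n ω = tr R n ω' := by
  unfold tr
  congr 1
  ext e
  rw [mem_Fs, mem_Fs]
  constructor
  · rintro ⟨h1, h2⟩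
    exact ⟨h1, by rw [← h e (edges_Bx R hn h1)]; exact h2⟩
  · rintro ⟨h1, h2⟩
    exact ⟨h1, by rw [h e (edges_Bx R hn h1)]; exact h2⟩

/-- Decorrelation with a function of the configuration of the rectangle at scale `m`. -/
theorem dec' (R : Rect) : ∃ C c : ℝ, 0 < C ∧ 0 < c ∧ c ≤ 1 ∧ ∀ m n : ℕ, 1 ≤ m → m ≤ n →
    ∀ h : Conf → ℝ, Measurable h →
    (∀ ω ω' : Conf, (∀ e ∈ Bx (ell R * m), ω e = ω' e) → h ω = h ω') →
    (∀ ω, |h ω| ≤ 1) → ∀ g : NonemptyCompacts ℂ → ℝ, (∀ x, |g x| ≤ 1) →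
    (∀ x y, |g x - g y| ≤ dist x y) →
    |∫ ω, h ω * g (tr R n ω) ∂perc - (∫ ω, h ω ∂perc) * ∫ ω, g (tr R n ω) ∂perc| ≤
      C * ((m : ℝ) / n) ^ c := by
  obtain ⟨C, c, hC, hc, key⟩ := dec R
  have hl0 : 0 < ell R := by unfold ell; omega
  have hl : (1 : ℝ) ≤ (ell R : ℝ) := by exact_mod_cast hl0
  set c' := min c 1 with hc'
  have hc'0 : 0 < c' := by positivity
  refine ⟨(C + 2) * (ell R : ℝ) ^ c, c', by positivity, hc'0, min_le_right _ _, ?_⟩
  intro m n hm hmn h mh hd hb g hg hlip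
  have hm0 : (0 : ℝ) < m := by exact_mod_cast hm
  have hn0 : (0 : ℝ) < n := by exact_mod_cast hm.trans hmn
  set x : ℝ := (m : ℝ) / n with hx
  have hx0 : 0 < x := by positivity
  have hx1 : x ≤ 1 := by
    rw [hx, div_le_one hn0]
    exact_mod_cast hmn
  have hxc : x ^ c ≤ x ^ c' := Real.rpow_le_rpow_of_exponent_ge hx0 hx1 (min_le_left _ _)
  have hle : (ell R : ℝ) ^ c * x ^ c ≤ (ell R : ℝ) ^ c * x ^ c' :=
    mul_le_mul_of_nonneg_left hxc (by positivity)
  have heq : (((ell R * m : ℕ) : ℝ) / n) ^ c = (ell R : ℝ) ^ c * x ^ c := by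
    rw [← Real.mul_rpow (by positivity) hx0.le, hx]
    congr 1
    push_cast
    ring
  have hpos : 0 ≤ (ell R : ℝ) ^ c * x ^ c' := by positivity
  by_cases hmn' : ell R * m ≤ n
  · have h1 := key (ell R * m) n (Nat.mul_pos hl0 hm) hmn' h mh hd hb g hg hlip
    rw [heq] at h1
    have h2 := mul_le_mul_of_nonneg_left hle hC.le
    calc _ ≤ C * ((ell R : ℝ) ^ c * x ^ c) := h1
      _ ≤ C * ((ell R : ℝ) ^ c * x ^ c') := h2
      _ ≤ (C + 2) * (ell R : ℝ) ^ c * x ^ c' := by nlinarith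
  · have h1 : 1 ≤ (ell R : ℝ) ^ c * x ^ c := by
      rw [← heq]
      apply Real.one_le_rpow _ hc.le
      rw [le_div_iff₀ hn0, one_mul]
      exact_mod_cast (not_le.1 hmn').le
    have gc := lip_cont hlip
    have mG : Measurable (fun ω => g (tr R n ω)) := gc.measurable.comp (tr_meas R n)
    have hI : ∀ u : Conf → ℝ, Measurable u → (∀ ω, |u ω| ≤ 1) → |∫ ω, u ω ∂perc| ≤ 1 := by
      intro u mu hu
      refine (abs_integral_le_integral_abs).trans ?_
      have iG : Integrable (fun ω => |u ω|) perc :=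
        Integrable.of_bound mu.abs.aestronglyMeasurable 1
          (Eventually.of_forall fun ω => by rw [Real.norm_eq_abs, abs_abs]; exact hu _)
      calc ∫ ω', |u ω'| ∂perc ≤ ∫ _ω', (1 : ℝ) ∂perc :=
            integral_mono iG (integrable_const _) fun ω' => hu _
        _ = 1 := by simp
    have a1 := hI _ (mh.mul mG) (fun ω => by
      show |h ω * g (tr R n ω)| ≤ 1
      rw [abs_mul]
      have := mul_le_mul (hb ω) (hg (tr R n ω)) (abs_nonneg _) zero_le_one
      linarith)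
    have a2 := hI _ mh hb
    have a3 := hI _ mG (fun ω => hg _)
    have a4 : |(∫ ω, h ω ∂perc) * ∫ ω, g (tr R n ω) ∂perc| ≤ 1 := by
      rw [abs_mul]
      have := mul_le_mul a2 a3 (abs_nonneg _) zero_le_one
      linarith
    have a5 := abs_sub (∫ ω, h ω * g (tr R n ω) ∂perc)
      ((∫ ω, h ω ∂perc) * ∫ ω, g (tr R n ω) ∂perc)
    have a6 : 0 ≤ C * ((ell R : ℝ) ^ c * x ^ c') := by positivity
    have a7 : |∫ ω, h ω * g (tr R n ω) ∂perc| ≤ 1 := a1
    calc _ ≤ (2 : ℝ) := by linarith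
      _ ≤ 2 * ((ell R : ℝ) ^ c * x ^ c') := by linarith
      _ ≤ (C + 2) * (ell R : ℝ) ^ c * x ^ c' := by nlinarith

/-- The covariances of a Lipschitz function at two scales. -/
theorem cov_g (R : Rect) : ∃ C c : ℝ, 0 < C ∧ 0 < c ∧ c ≤ 1 ∧
    ∀ g : NonemptyCompacts ℂ → ℝ, (∀ f, |g f| ≤ 1) →
    (∀ f f', |g f - g f'| ≤ dist f f') → ∀ m n : ℕ, 1 ≤ m → m ≤ n →
    |∫ ω, (g (tr R m ω) - ∫ ω', g (tr R m ω') ∂perc) *
      (g (tr R n ω) - ∫ ω', g (tr R n ω') ∂perc) ∂perc| ≤ C * ((m : ℝ) / n) ^ c := by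
  obtain ⟨C, c, hC, hc, hc1, key⟩ := dec' R
  refine ⟨C, c, hC, hc, hc1, ?_⟩
  intro g hg hlip m n hm hmn
  have gc := lip_cont hlip
  have mg : ∀ k, Measurable (fun ω => g (tr R k ω)) := fun k => gc.measurable.comp (tr_meas R k)
  have h1 := key m n hm hmn (fun ω => g (tr R m ω)) (mg m)
    (fun ω ω' h => by rw [tr_congr R hm h]) (fun ω => hg _) g hg hlip
  have iG : ∀ k, Integrable (fun ω => g (tr R k ω)) perc := fun k =>
    Integrable.of_bound (mg k).aestronglyMeasurable 1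
      (Eventually.of_forall fun ω => by rw [Real.norm_eq_abs]; exact hg _)
  have iGG : Integrable (fun ω => g (tr R m ω) * g (tr R n ω)) perc :=
    Integrable.of_bound ((mg m).mul (mg n)).aestronglyMeasurable (1 * 1)
      (Eventually.of_forall fun ω => by
        rw [Real.norm_eq_abs, abs_mul]
        exact mul_le_mul (hg _) (hg _) (abs_nonneg _) zero_le_one)
  set a := ∫ ω', g (tr R m ω') ∂perc with ha
  set b := ∫ ω', g (tr R n ω') ∂perc with hb
  have h2 : ∫ ω, (g (tr R m ω) - a) * (g (tr R n ω) - b) ∂perc =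
      ∫ ω, g (tr R m ω) * g (tr R n ω) ∂perc - a * b := by
    have e1 : ∀ ω, (g (tr R m ω) - a) * (g (tr R n ω) - b) =
        (g (tr R m ω) * g (tr R n ω) - b * g (tr R m ω)) - (a * g (tr R n ω) - a * b) := by
      intro ω; ring
    have j1 : Integrable (fun ω => g (tr R m ω) * g (tr R n ω) - b * g (tr R m ω)) perc :=
      iGG.sub ((iG m).const_mul b)
    have j2 : Integrable (fun ω => a * g (tr R n ω) - a * b) perc :=
      ((iG n).const_mul a).sub (integrable_const _)
    rw [integral_congr_ae (Eventually.of_forall e1), integral_sub j1 j2,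
      integral_sub iGG ((iG m).const_mul b), integral_sub ((iG n).const_mul a) (integrable_const _),
      integral_const_mul, integral_const_mul]
    simp only [integral_const, probReal_univ, smul_eq_mul, one_mul]
    rw [← ha, ← hb]
    ring
  rw [h2]
  exact h1

/-- The compact set of all traces. -/
theorem tight (R : Rect) : ∃ K : Set (NonemptyCompacts ℂ), IsCompact K ∧ ∀ n ω, tr R n ω ∈ K := by
  classical
  set N : ℕ := ⌈4 / R.L0⌉₊ + 1 with hN
  have hK := NonemptyCompacts.isCompact_subsets_of_isCompact R.isCompact_bigBox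
  have hfin : (⋃ n ∈ Finset.range (N + 1), (fun F => R.trace (ms_pos n) F) ''
      (↑((R.edges (ms n)).powerset) : Set (Finset Edg))).Finite := by
    refine Set.Finite.biUnion (Finset.finite_toSet _) fun n _ => ?_
    exact (Finset.finite_toSet _).image _
  refine ⟨_, hK.union hfin.isCompact, fun n ω => ?_⟩
  by_cases hn : n ≤ N
  · right
    rw [Set.mem_iUnion₂]
    refine ⟨n, Finset.mem_range.2 (by omega), Fs (R.edges (ms n)) ω, ?_, rfl⟩
    rw [Finset.mem_coe, Finset.mem_powerset]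
    exact Fs_sub _ _
  · left
    have hn' : N < n := not_le.1 hn
    have hn1 : 1 ≤ n := by omega
    have hn0 : (0 : ℝ) < n := by exact_mod_cast hn1
    have hδ : 4 * ms n < R.L0 := by
      rw [ms_eq hn1]
      have h5 : 4 / R.L0 < n := by
        have h6 : (4 / R.L0 : ℝ) ≤ ⌈4 / R.L0⌉₊ := Nat.le_ceil _
        have h7 : ((⌈4 / R.L0⌉₊ + 1 : ℕ) : ℝ) < n := by exact_mod_cast hn'
        push_cast at h7
        linarith
      rw [div_lt_iff₀ R.L0_pos] at h5
      rw [mul_one_div, div_lt_iff₀ hn0]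
      linarith
    have h1 : ms n ≤ 1 := by
      rw [ms_eq hn1, div_le_one hn0]
      exact_mod_cast hn1
    exact R.path_bigBox (ms_pos n) hδ h1 (Fs_sub _ _)

/-- **Almost sure limit theorem.** -/
theorem aslt (R : Rect) : ∀ᵐ ω ∂perc, ∀ g : NonemptyCompacts ℂ → ℝ, Continuous g →
    (∃ G : ℝ, ∀ x, |g x| ≤ G) →
      Tendsto (fun N => lav perc (tr R) g N ω) atTop (𝓝 0) := by
  obtain ⟨C, c, hC, hc, hc1, hcov⟩ := cov_g R
  have hne : Nonempty (NonemptyCompacts ℂ) := ⟨tr R 1 (fun _ => true)⟩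
  refine sim perc (tr_meas R) ?_ ?_
  · intro g hg hlip
    have gc := lip_cont hlip
    refine log_avg perc (X := fun n ω => g (tr R n ω) - ∫ ω', g (tr R n ω') ∂perc)
      (fun n => (gc.measurable.comp (tr_meas R n)).sub_const _) (K := 2) ?_ hC.le hc hc1
      (fun m n hm hmn => hcov g hg hlip m n hm hmn)
    intro n ω
    have h1 := hg (tr R n ω)
    have h2 : |∫ ω', g (tr R n ω') ∂perc| ≤ 1 := by
      refine (abs_integral_le_integral_abs).trans ?_
      have iG : Integrable (fun ω => |g (tr R n ω)|) perc :=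
        Integrable.of_bound ((gc.measurable.comp (tr_meas R n)).abs.aestronglyMeasurable) 1
          (Eventually.of_forall fun ω => by rw [Real.norm_eq_abs, abs_abs]; exact hg _)
      calc ∫ ω', |g (tr R n ω')| ∂perc ≤ ∫ _ω', (1 : ℝ) ∂perc :=
            integral_mono iG (integrable_const _) fun ω' => hg _
        _ = 1 := by simp
    have h3 := abs_sub (g (tr R n ω)) (∫ ω', g (tr R n ω') ∂perc)
    linarith
  · intro ε hε
    obtain ⟨K, hK, h⟩ := tight R
    refine ⟨K, hK, fun n _ => ?_⟩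
    have : {ω | tr R n ω ∉ K} = ∅ := by
      ext ω
      simp [h n ω]
    rw [this, measureReal_empty]
    exact hε.le

end Pool.Agent.Q218.RM
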