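import Pool.Agent.H984R4.HN.HPDefs
import Pool.Agent.H934R2.Expl.Model

/-!
The interface of critical bond percolation in a rectangle at all scales `1 / n`, in one configuration
of the edges of `ℤ²`. Definitions.
-/

set_option autoImplicit false

namespace Pool.Agent.Q218.RM

open H974 H934E Finset MeasureTheory TopologicalSpace
open H984H (Conf)

/-- The edges with both ends in the box `[-m, m]²`. -/
def Bx (m : ℕ) : Set Edg :=
  {e | inR (-(m : ℤ)) m (-(m : ℤ)) m (src e) ∧ inR (-(m : ℤ)) m (-(m : ℤ)) m (tgt e)}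

open Classical in
/-- The open edges of the finite set `S`. -/
noncomputable def Fs (S : Finset Edg) (ω : Conf) : Finset Edg := S.filter (fun e => ω e = true)

/-- The mesh `1 / n`. -/
noncomputable def ms (n : ℕ) : ℝ := 1 / ((max n 1 : ℕ) : ℝ)

theorem ms_pos (n : ℕ) : 0 < ms n := by
  unfold ms
  have : (0 : ℝ) < ((max n 1 : ℕ) : ℝ) := by
    have : 0 < max n 1 := by omega
    exact_mod_cast this
  positivity

/-- The trace of the interface of the rectangle `R` at mesh `1 / n`, in the configuration `ω`. -/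
noncomputable def tr (R : Rect) (n : ℕ) (ω : Conf) : NonemptyCompacts ℂ :=
  R.trace (ms_pos n) (Fs (R.edges (ms n)) ω)

/-- The logarithmic average of `a n` over `1 ≤ n ≤ N`. -/
noncomputable def logAvg (a : ℕ → ℝ) (N : ℕ) : ℝ :=
  (∑ n ∈ Finset.Icc 1 N, 1 / (n : ℝ) * a n) / Real.log N

end Pool.Agent.Q218.RM
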