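import Pool.Agent.Q218.RM.Defs
import Pool.Agent.H934R2.Expl.Final
import Pool.Agent.H12R2.Sep.Defs

/-!
The trace of the interface in a rectangle does not feel the edges of a small box at its starting
point, away from a slightly larger box.
-/

set_option autoImplicit false

namespace Pool.Agent.Q218.RM

open H974 H934E Finset MeasureTheory TopologicalSpace

/-- the sets of edges agree off the box -/
def Off (m : ℕ) (F F' : Finset Edg) : Prop := ∀ e, e ∉ Bx m → (e ∈ F ↔ e ∈ F')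

theorem Off.symm {m : ℕ} {F F' : Finset Edg} (h : Off m F F') : Off m F' F :=
  fun e he => (h e he).symm

/-- open path from the box -/
def CA (m : ℕ) (F : Finset Edg) (v : Vtx) : Prop :=
  ∃ u, inR (-(m : ℤ)) m (-(m : ℤ)) m u ∧ Reach (↑F : Set Edg) u v

/-- dual path from the box -/
def DA (m : ℕ) (S F : Finset Edg) (f : Vtx) : Prop :=
  ∃ g, inR (-((m + 1 : ℕ) : ℤ)) ((m + 1 : ℕ) : ℤ) (-((m + 1 : ℕ) : ℤ)) ((m + 1 : ℕ) : ℤ) g ∧
    DReach (↑(S \ F) : Set Edg) g f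

theorem adj_box {m : ℕ} {b c : Vtx} {e : Edg} (hem : e ∈ Bx m)
    (hc : (src e = b ∧ tgt e = c) ∨ (src e = c ∧ tgt e = b)) :
    inR (-(m : ℤ)) m (-(m : ℤ)) m c := by
  rcases hc with ⟨_, rfl⟩ | ⟨rfl, _⟩
  · exact hem.2
  · exact hem.1

theorem dadj_box {m : ℕ} {b c : Vtx} {e : Edg} (hem : e ∈ Bx m)
    (hc : (dsrc e = b ∧ dtgt e = c) ∨ (dsrc e = c ∧ dtgt e = b)) :
    inR (-((m + 1 : ℕ) : ℤ)) ((m + 1 : ℕ) : ℤ) (-((m + 1 : ℕ) : ℤ)) ((m + 1 : ℕ) : ℤ) c := by
  obtain ⟨h1, h2⟩ := hem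
  obtain ⟨x, y, t⟩ := e
  unfold inR at h1 h2 ⊢
  push_cast
  cases t
  · simp only [src_mk, tgt_false, dsrc_false, dtgt_mk] at h1 h2 hc
    rcases hc with ⟨_, rfl⟩ | ⟨rfl, _⟩ <;> simp only <;> omega
  · simp only [src_mk, tgt_true, dsrc_true, dtgt_mk] at h1 h2 hc
    rcases hc with ⟨_, rfl⟩ | ⟨rfl, _⟩ <;> simp only <;> omega

theorem CA_of {m : ℕ} {F F' : Finset Edg} (hoff : Off m F F') {v : Vtx} (h : CA m F' v) :
    CA m F v := by
  obtain ⟨u, hu, hr⟩ := h
  induction hr with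
  | refl => exact ⟨u, hu, Reach.refl _ _⟩
  | @tail b c _ hs ih =>
    obtain ⟨e, he, hc⟩ := hs
    by_cases hem : e ∈ Bx m
    · exact ⟨c, adj_box hem hc, Reach.refl _ _⟩
    · obtain ⟨u', hu', hr'⟩ := ih
      exact ⟨u', hu', hr'.tail ⟨e, Finset.mem_coe.2 ((hoff e hem).2 (Finset.mem_coe.1 he)), hc⟩⟩

theorem DA_of {m : ℕ} {S F F' : Finset Edg} (hoff : Off m F F') {v : Vtx} (h : DA m S F' v) :
    DA m S F v := by
  obtain ⟨u, hu, hr⟩ := h
  induction hr with
  | refl => exact ⟨u, hu, DReach.refl _ _⟩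
  | @tail b c _ hs ih =>
    obtain ⟨e, he, hc⟩ := hs
    by_cases hem : e ∈ Bx m
    · exact ⟨c, dadj_box hem hc, DReach.refl _ _⟩
    · obtain ⟨u', hu', hr'⟩ := ih
      refine ⟨u', hu', hr'.tail ⟨e, ?_, hc⟩⟩
      rw [Finset.mem_coe, Finset.mem_sdiff] at he ⊢
      exact ⟨he.1, fun h2 => he.2 ((hoff e hem).1 h2)⟩

variable (R : Rect)

/-- The wired arc is connected. -/
theorem wired_conn {δ : ℝ} (hx : R.x0 δ < 0) (hy : 0 < R.y1 δ) {e : Edg} (he : e ∈ R.wired δ) :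
    Reach (R.wired δ) (0, 0) (src e) := by
  have hb : ∀ k : ℕ, (k : ℤ) ≤ -R.x0 δ → Reach (R.wired δ) (0, 0) (-(k : ℤ), 0) := by
    intro k hk
    exact (wired_line (M := -R.x0 δ) (A := R.wired δ)
      (fun x h1 h2 => Or.inr (Or.inr ⟨rfl, rfl, by omega, h2⟩)) k hk).symm
  have hx0 : Reach (R.wired δ) (0, 0) (R.x0 δ, 0) := by
    obtain ⟨k, hk⟩ := Int.eq_ofNat_of_zero_le (show 0 ≤ -R.x0 δ by omega)
    have h1 := hb k (by omega)
    rwa [show -(k : ℤ) = R.x0 δ by omega] at h1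
  have hl : ∀ k : ℕ, (k : ℤ) ≤ R.y1 δ → Reach (R.wired δ) (0, 0) (R.x0 δ, (k : ℤ)) := by
    intro k
    induction k with
    | zero => intro _; exact_mod_cast hx0
    | succ k ih =>
      intro hk
      push_cast at hk ⊢
      refine (ih (by omega)).tail ⟨(R.x0 δ, (k : ℤ), false),
        Or.inr (Or.inl ⟨rfl, rfl, by simp, by simp only; omega⟩), Or.inl ⟨rfl, ?_⟩⟩
      rw [tgt_false]
  have hy1 : Reach (R.wired δ) (0, 0) (R.x0 δ, R.y1 δ) := by
    obtain ⟨k, hk⟩ := Int.eq_ofNat_of_zero_le (show 0 ≤ R.y1 δ by omega)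
    have h1 := hl k (by omega)
    rwa [show (k : ℤ) = R.y1 δ by omega] at h1
  have ht : ∀ k : ℕ, R.x0 δ + k ≤ R.tc δ → Reach (R.wired δ) (0, 0) (R.x0 δ + k, R.y1 δ) := by
    intro k
    induction k with
    | zero => intro _; simpa using hy1
    | succ k ih =>
      intro hk
      push_cast at hk ⊢
      refine (ih (by omega)).tail ⟨(R.x0 δ + k, R.y1 δ, true),
        Or.inl ⟨rfl, rfl, by simp, by simp only; omega⟩, Or.inl ⟨rfl, ?_⟩⟩
      rw [tgt_true, add_assoc]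
  obtain ⟨x, y, t⟩ := e
  rcases he with ⟨_, h1, h2, h3⟩ | ⟨_, h1, h2, h3⟩ | ⟨_, h1, h2, h3⟩
  · simp only at h1 h2 h3
    rw [src_mk]
    obtain ⟨k, hk⟩ := Int.eq_ofNat_of_zero_le (show 0 ≤ x - R.x0 δ by omega)
    have h4 := ht k (by omega)
    rwa [show R.x0 δ + (k : ℤ) = x by omega, ← h1] at h4
  · simp only at h1 h2 h3
    rw [src_mk]
    obtain ⟨k, hk⟩ := Int.eq_ofNat_of_zero_le h2
    have h4 := hl k (by omega)
    rwa [← hk, ← h1] at h4
  · simp only at h1 h2 h3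
    rw [src_mk]
    obtain ⟨k, hk⟩ := Int.eq_ofNat_of_zero_le (show 0 ≤ -x by omega)
    have h4 := hb k (by omega)
    rw [h1]
    rwa [show -(k : ℤ) = x by omega] at h4

/-- The open clusters of the wired arc agree away from the clusters of the small box. -/
theorem clu_off {m : ℕ} {δ : ℝ} (hx : R.x0 δ < 0) (hy : 0 < R.y1 δ) {F F' : Finset Edg}
    (hoff : Off m F F') {v : Vtx} (hv : v ∈ R.clu δ F) : v ∈ R.clu δ F' ∨ CA m F v := by
  have h0 : Reach (↑F ∪ R.wired δ) (0, 0) v := hv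
  show Reach (↑F' ∪ R.wired δ) (0, 0) v ∨ _
  induction h0 with
  | refl => exact Or.inl (Reach.refl _ _)
  | @tail b c hb hs ih =>
    obtain ⟨e, he, hc⟩ := hs
    rcases he with he | he
    · rcases ih (show b ∈ R.clu δ F from hb) with h1 | h1
      · by_cases hem : e ∈ Bx m
        · exact Or.inr ⟨c, adj_box hem hc, Reach.refl _ _⟩
        · exact Or.inl (h1.tail ⟨e, Or.inl (Finset.mem_coe.2 ((hoff e hem).1
            (Finset.mem_coe.1 he))), hc⟩)
      · obtain ⟨u, hu, hr⟩ := h1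
        exact Or.inr ⟨u, hu, hr.tail ⟨e, he, hc⟩⟩
    · left
      have h1 := (wired_conn R hx hy he).mono (G := ↑F' ∪ R.wired δ) Set.subset_union_right
      rcases hc with ⟨_, h2⟩ | ⟨h2, _⟩
      · exact h1.tail ⟨e, Or.inr he, Or.inl ⟨rfl, h2⟩⟩
      · rw [← h2]; exact h1

/-- The same for the dual cluster. -/
theorem dclu_off {m : ℕ} {δ : ℝ} {F F' : Finset Edg}
    (hoff : Off m F F') {f : Vtx} (hv : f ∈ R.dclu δ F) :
    f ∈ R.dclu δ F' ∨ DA m (R.edges δ) F f := by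
  obtain ⟨g, hg, hr⟩ := hv
  induction hr with
  | refl => exact Or.inl ⟨g, hg, DReach.refl _ _⟩
  | @tail b c hb hs ih =>
    obtain ⟨e, he, hc⟩ := hs
    have he1 : e ∈ R.edges δ := Finset.mem_coe.1 he.1
    have he2 : e ∉ F := fun h => he.2 (Or.inl (Finset.mem_coe.2 h))
    have he3 : e ∉ R.wired δ := fun h => he.2 (Or.inr h)
    rcases ih with h1 | h1
    · by_cases hem : e ∈ Bx m
      · exact Or.inr ⟨c, dadj_box hem hc, DReach.refl _ _⟩
      · obtain ⟨g', hg', hr'⟩ := h1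
        refine Or.inl ⟨g', hg', hr'.tail ⟨e, ⟨he.1, ?_⟩, hc⟩⟩
        rintro (h2 | h2)
        · exact he2 ((hoff e hem).2 (Finset.mem_coe.1 h2))
        · exact he3 h2
    · obtain ⟨u, hu, hr'⟩ := h1
      refine Or.inr ⟨u, hu, hr'.tail ⟨e, ?_, hc⟩⟩
      rw [Finset.mem_coe, Finset.mem_sdiff]
      exact ⟨he1, he2⟩

/-- `v` is far from the origin -/
def FarV (M : ℕ) (v : Vtx) : Prop :=
  v.1 ≤ -(M : ℤ) ∨ (M : ℤ) ≤ v.1 ∨ v.2 ≤ -(M : ℤ) ∨ (M : ℤ) ≤ v.2

theorem cface_far {M : ℕ} {v : Vtx} (h : FarV (M + 1) v) (s : Bool × Bool) : FarV M (cface v s) := by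
  unfold FarV at h ⊢
  unfold cface
  push_cast at h
  obtain ⟨s1, s2⟩ := s
  cases s1 <;> cases s2 <;> simp only [Bool.false_eq_true, if_false, if_true] <;> omega

/-- One inclusion between the paths, up to the size of the box. -/
theorem path_near' {m M : ℕ} {δ : ℝ} (hδ : 0 < δ) (hM : 1 ≤ M) (hx : R.x0 δ < 0)
    (hy : 0 < R.y1 δ) {F F' : Finset Edg}
    (hoff : Off m F F') (hP : ∀ v, CA m F v → ¬ FarV M v)
    (hD : ∀ f, DA m (R.edges δ) F f → ¬ FarV M f) {z : ℂ} (hz : z ∈ R.path δ F) :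
    ∃ z' ∈ R.path δ F', dist z z' ≤ 6 * (M + 1) * δ := by
  have hz' := hz
  unfold Rect.path at hz
  rw [Set.mem_iUnion₂] at hz
  obtain ⟨⟨v, s⟩, ⟨h1, h2⟩, h3⟩ := hz
  simp only at h1 h2 h3
  by_cases hfar : FarV (M + 1) v
  · have hfM : FarV M v := by
      unfold FarV at hfar ⊢
      push_cast at hfar
      omega
    have h4 : v ∈ R.clu δ F' := by
      rcases clu_off R hx hy hoff h1 with h | h
      · exact h
      · exact absurd hfM (hP v h)
    have h5 : cface v s ∈ R.dclu δ F' := by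
      rcases dclu_off R hoff h2 with h | h
      · exact h
      · exact absurd (cface_far hfar s) (hD _ h)
    refine ⟨z, ?_, by rw [dist_self]; positivity⟩
    unfold Rect.path
    rw [Set.mem_iUnion₂]
    exact ⟨(v, s), ⟨h4, h5⟩, h3⟩
  · refine ⟨⟨δ * (0 : ℤ), δ / 2⟩, R.mem_path (k := 0) le_rfl (R.x1_nonneg hδ) (Reach.refl _ _), ?_⟩
    have hv : |(v.1 : ℝ)| ≤ M ∧ |(v.2 : ℝ)| ≤ M := by
      unfold FarV at hfar
      push_cast at hfar
      have g1 : |v.1| ≤ (M : ℤ) := by rw [abs_le]; omega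
      have g2 : |v.2| ≤ (M : ℤ) := by rw [abs_le]; omega
      exact ⟨by exact_mod_cast g1, by exact_mod_cast g2⟩
    have hne : |z.re - δ * v.1| ≤ δ ∧ |z.im - δ * (v.2 + 1)| ≤ δ := by
      unfold cseg at h3
      rw [segment_eq_image] at h3
      obtain ⟨θ, ⟨h3, h4⟩, rfl⟩ := h3
      have ha : |if s.1 then δ / 2 else -(δ / 2)| ≤ δ := by
        split_ifs
        · rw [abs_of_pos (by positivity)]; linarith
        · rw [abs_neg, abs_of_pos (by positivity)]; linarith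
      have hb : |if s.2 then δ / 2 else -(δ / 2)| ≤ δ := by
        split_ifs
        · rw [abs_of_pos (by positivity)]; linarith
        · rw [abs_neg, abs_of_pos (by positivity)]; linarith
      unfold pt
      simp only [Complex.add_re, Complex.add_im, Complex.real_smul, Complex.mul_re, Complex.mul_im,
        Complex.sub_re, Complex.sub_im, Complex.one_re, Complex.one_im, Complex.ofReal_re,
        Complex.ofReal_im, zero_mul, sub_zero, add_zero, zero_add]
      constructor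
      · have e : (1 - θ) * (δ * (v.1 : ℝ) + if s.1 then δ / 2 else -(δ / 2)) + θ * (δ * (v.1 : ℝ))
            - δ * (v.1 : ℝ) = (1 - θ) * (if s.1 then δ / 2 else -(δ / 2)) := by ring
        rw [e, abs_mul, abs_of_nonneg (by linarith)]
        calc (1 - θ) * |if s.1 then δ / 2 else -(δ / 2)| ≤ 1 * δ :=
              mul_le_mul (by linarith) ha (abs_nonneg _) (by norm_num)
          _ = δ := one_mul _
      · have e : (1 - θ) * (δ * ((v.2 : ℝ) + 1)) + θ * (δ * ((v.2 : ℝ) + 1) +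
            if s.2 then δ / 2 else -(δ / 2)) - δ * ((v.2 : ℝ) + 1) =
            θ * (if s.2 then δ / 2 else -(δ / 2)) := by ring
        rw [e, abs_mul, abs_of_nonneg h3]
        calc θ * |if s.2 then δ / 2 else -(δ / 2)| ≤ 1 * δ :=
              mul_le_mul h4 hb (abs_nonneg _) (by norm_num)
          _ = δ := one_mul _
    rw [dist_eq_norm]
    refine (Complex.norm_le_abs_re_add_abs_im _).trans ?_
    rw [Complex.sub_re, Complex.sub_im]
    simp only [Int.cast_zero, mul_zero, sub_zero]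
    have hM1 : (1 : ℝ) ≤ M := by exact_mod_cast hM
    obtain ⟨n1, n2⟩ := hne
    obtain ⟨v1, v2⟩ := hv
    rw [abs_le] at n1 n2 v1 v2
    have g1 : |z.re| ≤ (M + 1) * δ := by
      rw [abs_le]
      constructor <;> nlinarith
    have g2 : |z.im - δ / 2| ≤ (M + 3) * δ := by
      rw [abs_le]
      constructor <;> nlinarith
    nlinarith

/-- The traces are close. -/
theorem trace_near {m M : ℕ} {δ : ℝ} (hδ : 0 < δ) (hM : 1 ≤ M) (hx : R.x0 δ < 0)
    (hy : 0 < R.y1 δ) {F F' : Finset Edg}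
    (hoff : Off m F F') (hP : ∀ v, CA m F v → ¬ FarV M v)
    (hD : ∀ f, DA m (R.edges δ) F f → ¬ FarV M f) :
    dist (R.trace hδ F) (R.trace hδ F') ≤ 6 * (M + 1) * δ := by
  rw [Metric.NonemptyCompacts.dist_eq]
  refine Metric.hausdorffDist_le_of_mem_dist (by positivity) ?_ ?_
  · intro z hz
    exact path_near' R hδ hM hx hy hoff hP hD hz
  · intro z hz
    exact path_near' R hδ hM hx hy hoff.symm (fun v h => hP v (CA_of hoff h))
      (fun f h => hD f (DA_of hoff h)) hz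

end Pool.Agent.Q218.RM
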