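import Pool.Agent.Q218.RM.Det
import Pool.Agent.H984R4.HN.Perc
import Pool.Agent.H12R2.Sep.Win2
import Pool.Agent.H12R2.Sep.WinHalf

/-!
All scales in one configuration.
-/

set_option autoImplicit false

namespace Pool.Agent.Q218.RM

open H974 H934E Finset MeasureTheory TopologicalSpace Filter Topology
open H984H (Conf perc)

theorem ms_eq {n : ℕ} (h : 1 ≤ n) : ms n = 1 / (n : ℝ) := by
  unfold ms
  rw [max_eq_left h]

theorem mem_Fs {S : Finset Edg} {ω : Conf} {e : Edg} : e ∈ Fs S ω ↔ e ∈ S ∧ ω e = true := by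
  unfold Fs
  rw [Finset.mem_filter]

theorem Fs_sub (S : Finset Edg) (ω : Conf) : Fs S ω ⊆ S := fun _ he => (mem_Fs.1 he).1

theorem Fs_pi (S : Finset Edg) {T : Finset Edg} (hT : T ⊆ S) :
    {ω : Conf | Fs S ω = T} = Set.pi (↑S : Set Edg) (fun g => {b : Bool | b = true ↔ g ∈ T}) := by
  ext ω
  rw [Set.mem_pi]
  constructor
  · intro h g hg
    have h' : Fs S ω = T := h
    show ω g = true ↔ g ∈ T
    rw [← h', mem_Fs]
    exact ⟨fun h => ⟨hg, h⟩, fun h => h.2⟩
  · intro h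
    show Fs S ω = T
    ext e
    rw [mem_Fs]
    constructor
    · rintro ⟨he, hω⟩
      exact (h e he).mp hω
    · intro he
      exact ⟨hT he, (h e (hT he)).mpr he⟩

theorem Fs_eq_meas (S T : Finset Edg) : MeasurableSet {ω : Conf | Fs S ω = T} := by
  by_cases hT : T ⊆ S
  · rw [Fs_pi S hT]
    exact MeasurableSet.pi (Finset.countable_toSet _) (fun _ _ => MeasurableSet.of_discrete)
  · have : {ω : Conf | Fs S ω = T} = ∅ := by
      ext ω
      simp only [Set.mem_empty_iff_false, iff_false]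
      intro h
      have h' : Fs S ω = T := h
      exact hT (h' ▸ Fs_sub S ω)
    rw [this]
    exact MeasurableSet.empty

theorem Fs_prob (S : Finset Edg) {T : Finset Edg} (hT : T ⊆ S) :
    perc.real {ω : Conf | Fs S ω = T} = (1/2 : ℝ) ^ S.card := by
  classical
  unfold perc
  rw [measureReal_def, Fs_pi S hT]
  rw [Measure.infinitePi_pi _ (fun _ _ => MeasurableSet.of_discrete), ENNReal.toReal_prod]
  have h1 : ∀ e ∈ S, ((PMF.uniformOfFintype Bool).toMeasure
      {b : Bool | b = true ↔ e ∈ T}).toReal = 1/2 := by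
    intro e _
    by_cases he : e ∈ T
    · have : {b : Bool | b = true ↔ e ∈ T} = {true} := by
        ext b; simp [he]
      rw [this, H984H.Perc_coin_eq]; simp
    · have : {b : Bool | b = true ↔ e ∈ T} = {false} := by
        ext b; simp [he]
      rw [this, H984H.Perc_coin_eq]; simp
  rw [Finset.prod_congr rfl h1, Finset.prod_const]

theorem Fs_real (S : Finset Edg) (A : Finset Edg → Prop) :
    perc.real {ω | A (Fs S ω)} = Q S A := by
  classical
  have hU : {ω : Conf | A (Fs S ω)} = ⋃ T ∈ S.powerset.filter A, {ω : Conf | Fs S ω = T} := by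
    ext ω
    simp only [Set.mem_iUnion, Finset.mem_filter, Finset.mem_powerset]
    constructor
    · intro h
      exact ⟨Fs S ω, ⟨Fs_sub S ω, h⟩, rfl⟩
    · rintro ⟨T, ⟨-, hQ⟩, hω⟩
      have hω' : Fs S ω = T := hω
      show A (Fs S ω)
      rw [hω']; exact hQ
  rw [hU, measureReal_biUnion_finset]
  · unfold Q Pr
    rw [H973.Ex_half, Finset.sum_filter, Finset.mul_sum]
    apply Finset.sum_congr rfl
    intro T hT
    split_ifs with hQ
    · rw [Fs_prob S (Finset.mem_powerset.mp hT), ind_of hQ, mul_one]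
    · rw [ind_not_of hQ, mul_zero]
  · intro T _ T' _ hne
    rw [Function.onFun, Set.disjoint_left]
    intro ω h1 h2
    exact hne ((show Fs S ω = T from h1).symm.trans (show Fs S ω = T' from h2))
  · intro T _
    exact Fs_eq_meas S T

theorem Fs_meas {X : Type*} [MeasurableSpace X] (S : Finset Edg) (f : Finset Edg → X) :
    Measurable (fun ω => f (Fs S ω)) := by
  intro s _
  have h : (fun ω : Conf => f (Fs S ω)) ⁻¹' s =
      ⋃ T ∈ {T : Finset Edg | f T ∈ s}, {ω : Conf | Fs S ω = T} := by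
    ext ω
    simp only [Set.mem_preimage, Set.mem_iUnion, Set.mem_ofPred_eq, exists_prop]
    exact ⟨fun h => ⟨_, h, rfl⟩, fun ⟨T, h1, h2⟩ => by rw [h2]; exact h1⟩
  rw [h]
  exact MeasurableSet.biUnion (Set.to_countable _) (fun T _ => Fs_eq_meas S T)

theorem tr_meas (R : Rect) (n : ℕ) : Measurable (tr R n) := Fs_meas _ _

theorem tr_law (R : Rect) (n : ℕ) :
    perc.map (tr R n) = (R.law (ms_pos n) : Measure (NonemptyCompacts ℂ)) := by
  ext G hG
  rw [Measure.map_apply (tr_meas R n) hG]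
  show _ = R.lawM (ms_pos n) G
  rw [R.lawM_apply (ms_pos n) hG, ← Fs_real, ofReal_measureReal (measure_ne_top _ _)]
  rfl

theorem Fs_off {m : ℕ} (S : Finset Edg) {ω ω' : Conf} (h : ∀ e ∉ Bx m, ω e = ω' e) :
    Off m (Fs S ω) (Fs S ω') := by
  intro e he
  rw [mem_Fs, mem_Fs, h e he]

/-- the two arm events -/
def BadC (m M : ℕ) (S : Finset Edg) : Set Conf := {ω | ∃ v, CA m (Fs S ω) v ∧ FarV M v}
def BadD (m M : ℕ) (S : Finset Edg) : Set Conf := {ω | ∃ v, DA m S (Fs S ω) v ∧ FarV M v}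

theorem bad_prob : ∃ a A : ℝ, 0 < a ∧ 0 < A ∧ ∀ (S : Finset Edg) (m M : ℕ), 1 ≤ m → m + 1 ≤ M →
    perc.real (BadC m M S ∪ BadD m M S) ≤ A * ((m : ℝ) / M) ^ a := by
  obtain ⟨κ, hκ, hW⟩ := H12S.win_half
  obtain ⟨C, c, hC, hc, harm⟩ := H12S.win_arm_of
    (fun h _ h1 h2 => fun c1 c2 S => H12S.win_blk h h1 h2 c1 c2 S) κ hκ
  refine ⟨c, C + C * 2 ^ c, hc, by positivity, ?_⟩
  intro S m M hm hM
  have hM0 : (0 : ℝ) < M := by
    have : 0 < M := by omega
    exact_mod_cast this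
  have h1 : perc.real (BadC m M S) ≤ C * ((m : ℝ) / M) ^ c := by
    have h2 : perc.real (BadC m M S) ≤
        perc.real {ω | H12S.Crs 0 0 m M (↑(Fs S ω) : Set Edg)} := by
      apply measureReal_mono
      · rintro ω ⟨v, ⟨u, hu, hr⟩, hf⟩
        refine ⟨u, v, ?_, ?_, hr⟩
        · unfold inR at hu ⊢; omega
        · unfold FarV at hf; omega
      · exact measure_ne_top _ _
    refine h2.trans ?_
    rw [Fs_real S (fun F => H12S.Crs 0 0 m M (↑F : Set Edg))]
    exact (harm (1/2) M (hW M) m M hm (by omega) le_rfl 0 0 S).1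
  have h3 : perc.real (BadD m M S) ≤ C * 2 ^ c * ((m : ℝ) / M) ^ c := by
    have h2 : perc.real (BadD m M S) ≤
        perc.real {ω | H12S.DCrs 0 0 (m + 1) M (↑(S \ Fs S ω) : Set Edg)} := by
      apply measureReal_mono
      · rintro ω ⟨v, ⟨u, hu, hr⟩, hf⟩
        refine ⟨u, v, ?_, ?_, hr⟩
        · unfold inR at hu ⊢; push_cast at hu ⊢; omega
        · unfold FarV at hf; omega
      · exact measure_ne_top _ _
    refine h2.trans ?_
    rw [Fs_real S (fun F => H12S.DCrs 0 0 (m + 1) M (↑(S \ F) : Set Edg))]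
    refine ((harm (1/2) M (hW M) (m + 1) M (by omega) hM le_rfl 0 0 S).2).trans ?_
    rw [mul_assoc, ← Real.mul_rpow (by norm_num) (by positivity)]
    apply mul_le_mul_of_nonneg_left _ hC.le
    apply Real.rpow_le_rpow (by positivity) _ hc.le
    rw [← mul_div_assoc]
    apply div_le_div_of_nonneg_right _ hM0.le
    have : (1 : ℝ) ≤ m := by exact_mod_cast hm
    push_cast
    linarith
  calc perc.real (BadC m M S ∪ BadD m M S) ≤ perc.real (BadC m M S) + perc.real (BadD m M S) :=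
        measureReal_union_le _ _
    _ ≤ C * ((m : ℝ) / M) ^ c + C * 2 ^ c * ((m : ℝ) / M) ^ c := add_le_add h1 h3
    _ = (C + C * 2 ^ c) * ((m : ℝ) / M) ^ c := by ring

/-- **Stability**: resampling the small box hardly moves the trace. -/
theorem near (R : Rect) : ∃ C c : ℝ, 0 < C ∧ 0 < c ∧ ∀ m n : ℕ, 1 ≤ m → m ≤ n → ∃ B : Set Conf,
    perc.real B ≤ C * ((m : ℝ) / n) ^ c ∧ ∀ ω ω' : Conf, (∀ e ∉ Bx m, ω e = ω' e) → ω ∉ B →
      dist (tr R n ω) (tr R n ω') ≤ C * ((m : ℝ) / n) ^ c := by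
  obtain ⟨a, A, ha, hA, hbad⟩ := bad_prob
  set N : ℕ := ⌈4 / R.L0⌉₊ + 1 with hN
  set c : ℝ := min (a / 2) (1 / 2) with hc
  have hc0 : 0 < c := by positivity
  refine ⟨A + 18 + (N : ℝ) ^ c, c, by positivity, hc0, ?_⟩
  intro m n hm hmn
  have hm0 : (0 : ℝ) < m := by exact_mod_cast hm
  have hm1 : (1 : ℝ) ≤ m := by exact_mod_cast hm
  have hn0 : (0 : ℝ) < n := by exact_mod_cast hm.trans hmn
  set x : ℝ := (m : ℝ) / n with hx
  have hx0 : 0 < x := by positivity
  have hx1 : x ≤ 1 := by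
    rw [hx, div_le_one hn0]
    exact_mod_cast hmn
  by_cases hnN : n ≤ N
  · refine ⟨Set.univ, ?_, fun ω ω' _ h => absurd (Set.mem_univ _) h⟩
    rw [probReal_univ]
    have hN0 : (0 : ℝ) < N := by
      have : 0 < N := by omega
      exact_mod_cast this
    have h1 : 1 ≤ (N : ℝ) ^ c * x ^ c := by
      rw [← Real.mul_rpow hN0.le hx0.le]
      apply Real.one_le_rpow _ hc0.le
      rw [hx, ← mul_div_assoc, le_div_iff₀ hn0, one_mul]
      have : (n : ℝ) ≤ N := by exact_mod_cast hnN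
      nlinarith
    have h2 : 0 ≤ (A + 18) * x ^ c := by positivity
    calc (1 : ℝ) ≤ (N : ℝ) ^ c * x ^ c := h1
      _ ≤ (A + 18) * x ^ c + (N : ℝ) ^ c * x ^ c := by linarith
      _ = _ := by ring
  have hn1 : 1 ≤ n := hm.trans hmn
  set M : ℕ := Nat.sqrt (m * n) + 1 with hM
  have hmM : m + 1 ≤ M := by
    have : m ≤ Nat.sqrt (m * n) := by
      rw [Nat.le_sqrt]
      exact Nat.mul_le_mul_left m hmn
    omega
  have hM0 : (0 : ℝ) < M := by
    have : 0 < M := by omega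
    exact_mod_cast this
  -- `m n ≤ M ^ 2 ≤ 4 m n`
  have h3 : (m : ℝ) * n ≤ (M : ℝ) ^ 2 := by
    have h5 : m * n < M * M := Nat.lt_succ_sqrt (m * n)
    have h6 : ((m * n : ℕ) : ℝ) ≤ ((M * M : ℕ) : ℝ) := by exact_mod_cast h5.le
    push_cast at h6
    nlinarith
  have h4 : ((M : ℝ) - 1) ^ 2 ≤ m * n := by
    have h5 : Nat.sqrt (m * n) * Nat.sqrt (m * n) ≤ m * n := Nat.sqrt_le _
    have h6 : ((Nat.sqrt (m * n) * Nat.sqrt (m * n) : ℕ) : ℝ) ≤ ((m * n : ℕ) : ℝ) := by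
      exact_mod_cast h5
    have h7 : (M : ℝ) - 1 = (Nat.sqrt (m * n) : ℝ) := by rw [hM]; push_cast; ring
    rw [h7]
    push_cast at h6
    nlinarith
  have hsx : x ^ (1/2 : ℝ) = Real.sqrt (m * n) / n := by
    rw [← Real.sqrt_eq_rpow, hx, Real.sqrt_div hm0.le, Real.sqrt_mul hm0.le]
    have h8 : 0 < Real.sqrt n := Real.sqrt_pos.2 hn0
    have h9 : Real.sqrt n * Real.sqrt n = n := Real.mul_self_sqrt hn0.le
    rw [div_eq_div_iff h8.ne' hn0.ne']
    calc Real.sqrt m * n = Real.sqrt m * (Real.sqrt n * Real.sqrt n) := by rw [h9]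
      _ = _ := by ring
  have hsq : Real.sqrt ((m : ℝ) * n) ≤ M := Real.sqrt_le_iff.2 ⟨hM0.le, h3⟩
  have hsq2 : (M : ℝ) - 1 ≤ Real.sqrt ((m : ℝ) * n) := Real.le_sqrt_of_sq_le h4
  have hsq1 : 1 ≤ Real.sqrt ((m : ℝ) * n) := by
    apply Real.le_sqrt_of_sq_le
    have : (1 : ℝ) ≤ n := by exact_mod_cast hn1
    nlinarith
  have hsq0 : 0 < Real.sqrt ((m : ℝ) * n) := by linarith
  have hmr : (m : ℝ) / M ≤ x ^ (1/2 : ℝ) := by
    rw [hsx, div_le_div_iff₀ hM0 hn0]
    calc (m : ℝ) * n = Real.sqrt (m * n) * Real.sqrt (m * n) :=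
          (Real.mul_self_sqrt (by positivity)).symm
      _ ≤ Real.sqrt (m * n) * M := mul_le_mul_of_nonneg_left hsq hsq0.le
  have hMr : 6 * ((M : ℝ) + 1) * (1 / n) ≤ 18 * x ^ (1/2 : ℝ) := by
    rw [hsx, mul_one_div, ← mul_div_assoc]
    apply div_le_div_of_nonneg_right _ hn0.le
    linarith
  have hxa : x ^ (a / 2) ≤ x ^ c := Real.rpow_le_rpow_of_exponent_ge hx0 hx1 (min_le_left _ _)
  have hxb : x ^ (1 / 2 : ℝ) ≤ x ^ c := Real.rpow_le_rpow_of_exponent_ge hx0 hx1 (min_le_right _ _)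
  have hNc : 0 ≤ (N : ℝ) ^ c * x ^ c := by positivity
  refine ⟨BadC m M (R.edges (ms n)) ∪ BadD m M (R.edges (ms n)), ?_, ?_⟩
  · have h5 := hbad (R.edges (ms n)) m M hm hmM
    have h7 : ((m : ℝ) / M) ^ a ≤ x ^ c := by
      refine le_trans ?_ hxa
      calc ((m : ℝ) / M) ^ a ≤ (x ^ (1/2 : ℝ)) ^ a := Real.rpow_le_rpow (by positivity) hmr ha.le
        _ = x ^ (a / 2) := by
            rw [← Real.rpow_mul hx0.le]
            congr 1
            ring
    have h8 := mul_le_mul_of_nonneg_left h7 hA.le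
    have h9 : 0 ≤ 18 * x ^ c := by positivity
    calc _ ≤ A * ((m : ℝ) / M) ^ a := h5
      _ ≤ A * x ^ c := h8
      _ ≤ (A + 18 + (N : ℝ) ^ c) * x ^ c := by linarith
  · intro ω ω' h hω
    rw [Set.mem_union, not_or] at hω
    obtain ⟨g1, g2⟩ := hω
    have hδ : 4 * ms n < R.L0 := by
      rw [ms_eq hn1]
      have h5 : 4 / R.L0 < n := by
        have h6 : (4 / R.L0 : ℝ) ≤ ⌈4 / R.L0⌉₊ := Nat.le_ceil _
        have h7 : ((⌈4 / R.L0⌉₊ + 1 : ℕ) : ℝ) < n := by exact_mod_cast (not_le.1 hnN)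
        push_cast at h7
        linarith
      rw [div_lt_iff₀ R.L0_pos] at h5
      rw [mul_one_div, div_lt_iff₀ hn0]
      linarith
    obtain ⟨k1, k2, -, -⟩ := R.small_geom (ms_pos n) hδ
    have h5 := trace_near R (ms_pos n) (m := m) (M := M) (by omega) k1 k2
      (Fs_off (R.edges (ms n)) h) (fun v hv hf => g1 ⟨v, hv, hf⟩) (fun v hv hf => g2 ⟨v, hv, hf⟩)
    have h6 : dist (tr R n ω) (tr R n ω') ≤ 6 * ((M : ℝ) + 1) * ms n := h5
    rw [ms_eq hn1] at h6
    have h7 : 0 ≤ A * x ^ c := by positivity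
    calc _ ≤ 18 * x ^ (1/2 : ℝ) := h6.trans hMr
      _ ≤ 18 * x ^ c := mul_le_mul_of_nonneg_left hxb (by norm_num)
      _ ≤ (A + 18 + (N : ℝ) ^ c) * x ^ c := by linarith

end Pool.Agent.Q218.RM
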