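import Pool.Agent.Q218.RM.Defs
import Pool.Agent.Q218.DC.Slln

/-!
Logarithmic averages.
-/

set_option autoImplicit false

namespace Pool.Agent.Q218.RM

open MeasureTheory Filter Topology
open Pool.Agent.Q218.DC (harm_le)

/-- Logarithmic averages of a convergent sequence. -/
theorem logAvg_tendsto {a : ℕ → ℝ} {l : ℝ} (h : Tendsto a atTop (𝓝 l)) :
    Tendsto (logAvg a) atTop (𝓝 l) := by
  -- the average of the constant `1`
  have h1 : Tendsto (logAvg fun _ => 1) atTop (𝓝 1) := by
    have hlog := Real.tendsto_log_atTop.comp (tendsto_natCast_atTop_atTop (R := ℝ))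
    have hup : Tendsto (fun N : ℕ => 1 / Real.log N + 1) atTop (𝓝 (0 + 1)) :=
      (tendsto_const_nhds.div_atTop hlog).add_const 1
    rw [zero_add] at hup
    refine tendsto_of_tendsto_of_tendsto_of_le_of_le' tendsto_const_nhds hup ?_ ?_
    · filter_upwards [eventually_ge_atTop 3] with N hN
      have hN3 : (3 : ℝ) ≤ N := by exact_mod_cast hN
      have hl : 0 < Real.log N := Real.log_pos (by linarith)
      unfold logAvg
      rw [le_div_iff₀ hl, one_mul]
      have h2 := log_add_one_le_harmonic N
      rw [harmonic_eq_sum_Icc] at h2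
      push_cast at h2
      have h3 : Real.log N ≤ Real.log ((N : ℝ) + 1) := Real.log_le_log (by linarith) (by linarith)
      simp only [one_div, mul_one]
      linarith
    · filter_upwards [eventually_ge_atTop 3] with N hN
      have hN3 : (3 : ℝ) ≤ N := by exact_mod_cast hN
      have hl : 0 < Real.log N := Real.log_pos (by linarith)
      unfold logAvg
      rw [div_le_iff₀ hl, add_mul, one_mul, one_div_mul_cancel hl.ne']
      have h2 := harm_le (N := N) (by omega)
      simpa using h2
  have hlog := Real.tendsto_log_atTop.comp (tendsto_natCast_atTop_atTop (R := ℝ))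
  rw [Metric.tendsto_atTop]
  intro ε hε
  obtain ⟨N0, hN0⟩ := Metric.tendsto_atTop.1 h (ε / 4) (by positivity)
  -- the first terms
  set A : ℝ := ∑ n ∈ Finset.Icc 1 N0, 1 / (n : ℝ) * |a n - l| with hA
  have hA0 : 0 ≤ A := Finset.sum_nonneg fun n _ => by positivity
  have e1 : ∀ᶠ N : ℕ in atTop, A / Real.log N < ε / 4 :=
    (tendsto_const_nhds.div_atTop hlog).eventually (gt_mem_nhds (by positivity))
  have e2 : ∀ᶠ N : ℕ in atTop, logAvg (fun _ => 1) N < 2 := h1.eventually (gt_mem_nhds (by norm_num))
  have e3 : ∀ᶠ N : ℕ in atTop, |l| * |logAvg (fun _ => 1) N - 1| < ε / 4 := by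
    have h5 : Tendsto (fun N => |l| * |logAvg (fun _ => 1) N - 1|) atTop (𝓝 (|l| * |(1 : ℝ) - 1|)) :=
      ((h1.sub_const 1).abs).const_mul _
    rw [sub_self, abs_zero, mul_zero] at h5
    exact h5.eventually (gt_mem_nhds (by positivity))
  apply eventually_atTop.1
  filter_upwards [e1, e2, e3, eventually_ge_atTop 3, eventually_ge_atTop N0] with N g1 g2 g3 hN hNN
  have hN3 : (3 : ℝ) ≤ N := by exact_mod_cast hN
  have hl : 0 < Real.log N := Real.log_pos (by linarith)
  rw [Real.dist_eq]
  have key : |logAvg a N - l * logAvg (fun _ => 1) N| ≤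
      A / Real.log N + ε / 4 * logAvg (fun _ => 1) N := by
    have e4 : logAvg a N - l * logAvg (fun _ => 1) N =
        (∑ n ∈ Finset.Icc 1 N, 1 / (n : ℝ) * (a n - l)) / Real.log N := by
      unfold logAvg
      rw [← mul_div_assoc l _ (Real.log N), ← sub_div, Finset.mul_sum, ← Finset.sum_sub_distrib]
      congr 1
      apply Finset.sum_congr rfl
      intro n _
      ring
    have e5 : A / Real.log N + ε / 4 * logAvg (fun _ => 1) N =
        (A + ∑ n ∈ Finset.Icc 1 N, 1 / (n : ℝ) * (ε / 4)) / Real.log N := by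
      unfold logAvg
      rw [← mul_div_assoc (ε / 4) _ (Real.log N), ← add_div, Finset.mul_sum]
      congr 2
      apply Finset.sum_congr rfl
      intro n _
      ring
    rw [e4, e5, abs_div, abs_of_pos hl]
    apply div_le_div_of_nonneg_right _ hl.le
    refine (Finset.abs_sum_le_sum_abs _ _).trans ?_
    have e6 : ∀ n ∈ Finset.Icc 1 N, |1 / (n : ℝ) * (a n - l)| ≤
        (if n ≤ N0 then 1 / (n : ℝ) * |a n - l| else 0) + 1 / (n : ℝ) * (ε / 4) := by
      intro n _
      rw [abs_mul, abs_of_nonneg (by positivity : (0 : ℝ) ≤ 1 / (n : ℝ))]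
      split_ifs with hn
      · have : (0 : ℝ) ≤ 1 / (n : ℝ) * (ε / 4) := by positivity
        linarith
      · rw [zero_add]
        apply mul_le_mul_of_nonneg_left _ (by positivity)
        have := hN0 n (by omega)
        rw [Real.dist_eq] at this
        exact this.le
    refine (Finset.sum_le_sum e6).trans ?_
    rw [Finset.sum_add_distrib, ← Finset.sum_filter]
    apply add_le_add _ le_rfl
    apply Finset.sum_le_sum_of_subset_of_nonneg
    · intro n hn
      rw [Finset.mem_filter, Finset.mem_Icc] at hn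
      rw [Finset.mem_Icc]
      omega
    · intro n _ _
      positivity
  have e7 : logAvg a N - l = (logAvg a N - l * logAvg (fun _ => 1) N) +
      l * (logAvg (fun _ => 1) N - 1) := by ring
  rw [e7]
  refine lt_of_le_of_lt (abs_add_le _ _) ?_
  rw [abs_mul l]
  have e8 : ε / 4 * logAvg (fun _ => 1) N ≤ ε / 4 * 2 := mul_le_mul_of_nonneg_left g2.le (by positivity)
  linarith

end Pool.Agent.Q218.RM
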